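import Mathlib

/-!
# Multilinear functions on product sets

`Fn K X` is the ring of `K`-valued functions on `∏ i, X i`; `A S` is the subspace of functions
depending only on the coordinates in the finite set `S`.  The product of `f ∈ A S` and
`g ∈ A S'` for disjoint `S, S'` is the tensor product of `f` and `g`.
-/

set_option autoImplicit false
set_option linter.unusedSectionVars false

open Finset

namespace Pool.Lib.MP_9444d7_co

universe u v

/-- Functions on a product of sets. -/
abbrev Fn {ι : Type} (K : Type u) (X : ι → Type v) : Type (max u v) := (∀ i, X i) → K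

section

variable {ι : Type} [DecidableEq ι] {K : Type u} [Field K] {X : ι → Type v}

/-- Functions depending only on the coordinates in `S`. -/
def A (S : Finset ι) : Submodule K (Fn K X) where
  carrier := {f | ∀ x y : (∀ i, X i), (∀ i ∈ S, x i = y i) → f x = f y}
  add_mem' := by
    intro f g hf hg x y h
    simp [hf x y h, hg x y h]
  zero_mem' := by intro x y _; rfl
  smul_mem' := by
    intro c f hf x y h
    simp [hf x y h]

theorem mem_A {S : Finset ι} {f : Fn K X} :
    f ∈ (A S : Submodule K (Fn K X)) ↔ ∀ x y : (∀ i, X i), (∀ i ∈ S, x i = y i) → f x = f y :=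
  Iff.rfl

theorem A_mono {S T : Finset ι} (h : S ⊆ T) : (A S : Submodule K (Fn K X)) ≤ A T :=
  fun _ hf x y hxy => hf x y fun i hi => hxy i (h hi)

theorem mul_mem_A {S T U : Finset ι} {f g : Fn K X} (hf : f ∈ (A S : Submodule K (Fn K X)))
    (hg : g ∈ (A T : Submodule K (Fn K X))) (hS : S ⊆ U) (hT : T ⊆ U) :
    f * g ∈ (A U : Submodule K (Fn K X)) := by
  intro x y h
  simp [hf x y fun i hi => h i (hS hi), hg x y fun i hi => h i (hT hi)]

/-- The coefficients which may multiply an element of degree `S` to give degree `L`. -/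
def H (L S : Finset ι) : Submodule K (Fn K X) := if S ⊆ L then A (L \ S) else ⊥

theorem mem_H {L S : Finset ι} {f : Fn K X} :
    f ∈ (H L S : Submodule K (Fn K X)) ↔ (S ⊆ L ∧ f ∈ (A (L \ S) : Submodule K (Fn K X))) ∨
      (¬ S ⊆ L ∧ f = 0) := by
  unfold H
  split_ifs with h
  · simp [h]
  · simp [h]

theorem mem_H_of_subset {L S : Finset ι} (h : S ⊆ L) {f : Fn K X} :
    f ∈ (H L S : Submodule K (Fn K X)) ↔ f ∈ (A (L \ S) : Submodule K (Fn K X)) := by
  simp [H, h]

theorem eq_zero_of_mem_H {L S : Finset ι} (h : ¬ S ⊆ L) {f : Fn K X}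
    (hf : f ∈ (H L S : Submodule K (Fn K X))) : f = 0 := by
  simpa [H, h] using hf

theorem H_mul {L M S : Finset ι} {f g : Fn K X} (hf : f ∈ (H L M : Submodule K (Fn K X)))
    (hg : g ∈ (H M S : Submodule K (Fn K X))) : f * g ∈ (H L S : Submodule K (Fn K X)) := by
  by_cases h1 : M ⊆ L
  · by_cases h2 : S ⊆ M
    · rw [mem_H_of_subset h1] at hf
      rw [mem_H_of_subset h2] at hg
      rw [mem_H_of_subset (h2.trans h1)]
      refine mul_mem_A hf hg ?_ ?_
      · exact sdiff_subset_sdiff (Subset.refl _) h2
      · exact sdiff_subset_sdiff h1 (Subset.refl _)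
    · rw [eq_zero_of_mem_H h2 hg, mul_zero]
      exact Submodule.zero_mem _
  · rw [eq_zero_of_mem_H h1 hf, zero_mul]
    exact Submodule.zero_mem _

theorem exists_const_of_mem_A_empty {f : Fn K X} (hf : f ∈ (A ∅ : Submodule K (Fn K X))) :
    ∃ c : K, ∀ x, f x = c := by
  by_cases h : Nonempty (∀ i, X i)
  · obtain ⟨x₀⟩ := h
    exact ⟨f x₀, fun x => hf x x₀ (by simp)⟩
  · exact ⟨0, fun x => absurd ⟨x⟩ h⟩

/-- Contraction in direction `b` with the vector `z`. -/
def contr (b : ι) [Fintype (X b)] (z : X b → K) (f : Fn K X) : Fn K X :=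
  fun x => ∑ y, z y * f (Function.update x b y)

section contr

variable (b : ι) [Fintype (X b)]

theorem contr_mem_A {S : Finset ι} {z : X b → K} {f : Fn K X}
    (hf : f ∈ (A S : Submodule K (Fn K X))) :
    contr b z f ∈ (A (S.erase b) : Submodule K (Fn K X)) := by
  intro x y h
  unfold contr
  refine sum_congr rfl fun w _ => ?_
  congr 1
  refine hf _ _ fun i hi => ?_
  by_cases hib : i = b
  · subst hib; simp
  · simp [Function.update_of_ne hib, h i (mem_erase.2 ⟨hib, hi⟩)]

theorem contr_add (z : X b → K) (f g : Fn K X) : contr b z (f + g) = contr b z f + contr b z g := by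
  funext x
  simp [contr, mul_add, sum_add_distrib]

theorem contr_zero (z : X b → K) : contr b z (0 : Fn K X) = 0 := by
  funext x
  simp [contr]

theorem contr_neg (z : X b → K) (f : Fn K X) : contr b z (-f) = - contr b z f := by
  funext x
  simp [contr, sum_neg_distrib]

theorem contr_sum {κ : Type*} (s : Finset κ) (z : X b → K) (f : κ → Fn K X) :
    contr b z (∑ r ∈ s, f r) = ∑ r ∈ s, contr b z (f r) := by
  classical
  induction s using Finset.induction_on with
  | empty => simp [contr_zero]
  | insert a s ha ih => rw [sum_insert ha, sum_insert ha, contr_add, ih]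

theorem contr_vec_add (z w : X b → K) (f : Fn K X) :
    contr b (z + w) f = contr b z f + contr b w f := by
  funext x
  simp [contr, add_mul, sum_add_distrib]

theorem contr_vec_smul (c : K) (z : X b → K) (f : Fn K X) :
    contr b (c • z) f = c • contr b z f := by
  funext x
  simp [contr, mul_sum, mul_assoc]

theorem contr_vec_zero (f : Fn K X) : contr b (0 : X b → K) f = 0 := by
  funext x
  simp [contr]

/-- A factor that does not depend on `b` can be pulled out. -/
theorem contr_mul_left {S : Finset ι} (hb : b ∉ S) (z : X b → K) {f : Fn K X} (g : Fn K X)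
    (hf : f ∈ (A S : Submodule K (Fn K X))) : contr b z (f * g) = f * contr b z g := by
  funext x
  simp only [contr, Pi.mul_apply, mul_sum]
  refine sum_congr rfl fun y _ => ?_
  have : f (Function.update x b y) = f x := by
    refine hf _ _ fun i hi => ?_
    have : i ≠ b := fun h => hb (h ▸ hi)
    simp [Function.update_of_ne this]
  rw [this]; ring

theorem contr_mul_right {S : Finset ι} (hb : b ∉ S) (z : X b → K) (f : Fn K X) {g : Fn K X}
    (hg : g ∈ (A S : Submodule K (Fn K X))) : contr b z (f * g) = contr b z f * g := by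
  rw [mul_comm, contr_mul_left b hb z f hg, mul_comm]

theorem contr_single [DecidableEq (X b)] (y : X b) (f : Fn K X) :
    contr b (Pi.single y (1 : K)) f = fun x => f (Function.update x b y) := by
  funext x
  simp only [contr]
  rw [sum_eq_single y]
  · simp
  · intro w _ hw
    simp [Pi.single_eq_of_ne hw]
  · simp

theorem contr_single_self [DecidableEq (X b)] (f : Fn K X) (x : ∀ i, X i) :
    contr b (Pi.single (x b) (1 : K)) f x = f x := by
  rw [contr_single]; simp

end contr

/-- Glueing: a family of functions indexed by the coordinate `b`. -/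
def glue (b : ι) (f : X b → Fn K X) : Fn K X := fun x => f (x b) x

theorem glue_mem_A {b : ι} {S : Finset ι} {f : X b → Fn K X}
    (hf : ∀ y, f y ∈ (A S : Submodule K (Fn K X))) :
    glue b f ∈ (A (insert b S) : Submodule K (Fn K X)) := by
  intro x y h
  unfold glue
  rw [h b (mem_insert_self _ _)]
  exact hf _ x y fun i hi => h i (mem_insert_of_mem hi)

end

end Pool.Lib.MP_9444d7_co
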