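import Pool.Agent.Lib.MP_9444d7_co.Syz

/-!
# Generic chains stabilise after boundedly many steps
-/

set_option autoImplicit false
set_option linter.unusedSectionVars false
set_option linter.unusedVariables false

open Finset

namespace Pool.Lib.MP_9444d7_co

universe u v w

section

variable {ι : Type} [DecidableEq ι] {K : Type u} [Field K] {X : ι → Type v}
variable {κ κ₀ π : Type} [Fintype κ] [Fintype κ₀] [Fintype π] {Z : Type w}
  (S : κ → Finset ι) (S₀ : κ₀ → Finset ι) (e : Z → κ → π → Fn K X) (f : κ₀ → π → Fn K X)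

theorem map_lt_of_lt {V : Type*} [AddCommGroup V] [Module K V] {D W W' : Submodule K V}
    (hD : D ≤ W) (h : W < W') :
    Submodule.map D.mkQ W < Submodule.map D.mkQ W' := by
  refine lt_of_le_of_ne (Submodule.map_mono h.le) fun heq => ?_
  have h1 : Submodule.comap D.mkQ (Submodule.map D.mkQ W) =
      Submodule.comap D.mkQ (Submodule.map D.mkQ W') := by rw [heq]
  rw [Submodule.comap_map_mkQ, Submodule.comap_map_mkQ, sup_eq_right.2 hD,
    sup_eq_right.2 (hD.trans h.le)] at h1
  exact h.ne h1

theorem stage_step {B : Finset ι} {C : ℕ → ℕ → ℕ} (hC : Coh K X B C)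
    (hS : ∀ r, S r ⊆ B) (hS₀ : ∀ v, S₀ v ⊆ B)
    (he : ∀ w r j, e w r j ∈ (A (S r) : Submodule K (Fn K X)))
    (hf : ∀ v j, f v j ∈ (A (S₀ v) : Submodule K (Fn K X))) (t : ℕ) (j : ℕ)
    (ih : ∀ l : List Z, Gen S S₀ e f B l → l.length = t → ∀ L, L ⊆ B → L.card < j →
      CI S S₀ e f l L ≤ CZ S S₀ e f L)
    (l : List Z) (hl : Gen S S₀ e f B l)
    (hlen : l.length = t +
      C (Fintype.card κ + Fintype.card κ₀ * t) (Fintype.card π * t))
    (L : Finset ι) (hL : L ⊆ B) (hLj : L.card < j + 1) :
    CI S S₀ e f l L ≤ CZ S S₀ e f L := by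
  classical
  set n := C (Fintype.card κ + Fintype.card κ₀ * t) (Fintype.card π * t) with hn
  -- split the list
  obtain ⟨l₂, l₁, rfl, hl₂, hl₁⟩ : ∃ l₂ l₁ : List Z, l = l₂ ++ l₁ ∧ l₂.length = n ∧
      l₁.length = t := by
    refine ⟨l.take n, l.drop n, (List.take_append_drop n l).symm, ?_, ?_⟩
    · rw [List.length_take]; omega
    · rw [List.length_drop]; omega
  have hg₁ := hl.of_append
  rcases Nat.lt_or_ge L.card j with hlt | hge
  · exact (CI_append_le S S₀ e f l₂ l₁ L).trans (ih l₁ hg₁ hl₁ L hL hlt)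
  have hLj' : L.card = j := by omega
  obtain ⟨Lg, σ, h1, h2, h3⟩ := exists_gens S S₀ e f hC hS hS₀ he hf l₁ t hl₁
  -- the solution space is finite dimensional modulo `CZ`
  let v : Fin n → κ → Fn K X := fun u => if Lg u = L then σ u else 0
  have hspan : CI S S₀ e f l₁ L ≤ CZ S S₀ e f L ⊔ Submodule.span K (Set.range v) := by
    intro β hβ
    obtain ⟨α, hα1, hα2⟩ := h3 L hL β hβ
    have hβ' : β = ∑ u, (fun r => α u * σ u r) := by
      funext r
      rw [hα2 r, Finset.sum_apply]
    rw [hβ']
    refine Submodule.sum_mem _ fun u _ => ?_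
    by_cases hsub : Lg u ⊆ L
    · by_cases heq : Lg u = L
      · have hα := hα1 u
        rw [heq, mem_H_of_subset (Subset.refl _), sdiff_self] at hα
        obtain ⟨c, hc⟩ := exists_const_of_mem_A_empty hα
        have : (fun r => α u * σ u r) = c • v u := by
          funext r x
          simp [v, heq, hc]
        rw [this]
        exact Submodule.mem_sup_right (Submodule.smul_mem _ _ (Submodule.subset_span ⟨u, rfl⟩))
      · have hcard : (Lg u).card < j := by
          rw [← hLj']
          exact card_lt_card (Finset.ssubset_iff_subset_ne.2 ⟨hsub, heq⟩)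
        have := ih l₁ hg₁ hl₁ (Lg u) (h1 u) hcard (h2 u)
        exact Submodule.mem_sup_left (CP_mul S S₀ e f this (hα1 u))
    · have := eq_zero_of_mem_H hsub (hα1 u)
      have h0 : (fun r => α u * σ u r) = 0 := by
        funext r
        simp [this]
      rw [h0]
      exact Submodule.zero_mem _
  set D := CZ S S₀ e f L with hD
  have hmap : Submodule.map D.mkQ (CI S S₀ e f l₁ L) ≤
      Submodule.span K (Set.range fun u => D.mkQ (v u)) := by
    refine (Submodule.map_mono hspan).trans ?_
    rw [Submodule.map_sup, Submodule.map_span, ← Set.range_comp]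
    have : Submodule.map D.mkQ D = ⊥ := by
      rw [Submodule.eq_bot_iff]
      rintro _ ⟨x, hx, rfl⟩
      simpa using hx
    rw [this, bot_sup_eq]
    rfl
  have hfd : FiniteDimensional K (Submodule.span K (Set.range fun u => D.mkQ (v u))) :=
    FiniteDimensional.span_of_finite K (Set.finite_range _)
  have hfr : Module.finrank K (Submodule.span K (Set.range fun u => D.mkQ (v u))) ≤ n := by
    have := finrank_range_le_card (R := K) (fun u => D.mkQ (v u))
    simpa [Set.finrank] using this
  -- the chain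
  have key : ∀ l₃ : List Z, Gen S S₀ e f B (l₃ ++ l₁) →
      (CI S S₀ e f (l₃ ++ l₁) L ≤ D ∨
        Module.finrank K (Submodule.map D.mkQ (CI S S₀ e f (l₃ ++ l₁) L)) + l₃.length ≤ n) := by
    intro l₃
    induction l₃ with
    | nil =>
      intro _
      right
      have h1 := Submodule.finrank_mono hmap
      simp only [List.nil_append, List.length_nil, add_zero]
      exact h1.trans hfr
    | cons w l₃ ih₃ =>
      intro hgen
      have hg' : Gen S S₀ e f B (l₃ ++ l₁) := hgen.1
      have hmono : CI S S₀ e f (w :: l₃ ++ l₁) L ≤ CI S S₀ e f (l₃ ++ l₁) L :=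
        CP_mono S S₀ e f (fun _ hw => List.mem_cons_of_mem _ hw) L
      rcases ih₃ hg' with h | h
      · left
        exact hmono.trans h
      · rcases hgen.2 L hL with h' | h'
        · left
          exact hmono.trans h'
        · right
          have hlt : CI S S₀ e f (w :: l₃ ++ l₁) L < CI S S₀ e f (l₃ ++ l₁) L := by
            refine lt_of_le_of_ne hmono fun heq => h' ?_
            change CI S S₀ e f (l₃ ++ l₁) L ≤ _
            rw [← heq]
            exact CP_mono S S₀ e f (fun _ hw => by rw [hw]; exact List.mem_cons_self) L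
          have hlt' := map_lt_of_lt (D := D) (CZ_le_CI S S₀ e f _ L) hlt
          have hfd' : FiniteDimensional K (Submodule.map D.mkQ (CI S S₀ e f (l₃ ++ l₁) L)) := by
            refine Submodule.finiteDimensional_of_le
              ((Submodule.map_mono (CI_append_le S S₀ e f l₃ l₁ L)).trans hmap)
          have := Submodule.finrank_lt_finrank_of_lt hlt'
          simp only [List.length_cons]
          omega
  rcases key l₂ hl with h | h
  · exact h
  · rw [hl₂] at h
    have h0 : Module.finrank K (Submodule.map D.mkQ (CI S S₀ e f (l₂ ++ l₁) L)) = 0 := by omega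
    have hfd' : FiniteDimensional K (Submodule.map D.mkQ (CI S S₀ e f (l₂ ++ l₁) L)) := by
      refine Submodule.finiteDimensional_of_le
        ((Submodule.map_mono (CI_append_le S S₀ e f l₂ l₁ L)).trans hmap)
    rw [Submodule.finrank_eq_zero] at h0
    intro β hβ
    have : D.mkQ β ∈ Submodule.map D.mkQ (CI S S₀ e f (l₂ ++ l₁) L) :=
      Submodule.mem_map_of_mem hβ
    rw [h0, Submodule.mem_bot] at this
    simpa using this

/-- Generic lists of the right length are stable in all degrees. -/
theorem gen_stable {B : Finset ι} {C : ℕ → ℕ → ℕ} (hC : Coh K X B C)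
    (hS : ∀ r, S r ⊆ B) (hS₀ : ∀ v, S₀ v ⊆ B)
    (he : ∀ w r j, e w r j ∈ (A (S r) : Submodule K (Fn K X)))
    (hf : ∀ v j, f v j ∈ (A (S₀ v) : Submodule K (Fn K X))) (j : ℕ) :
    ∀ l : List Z, Gen S S₀ e f B l →
      l.length = stage C (Fintype.card κ) (Fintype.card κ₀) (Fintype.card π) j →
      ∀ L, L ⊆ B → L.card < j → CI S S₀ e f l L ≤ CZ S S₀ e f L := by
  induction j with
  | zero => intro l _ _ L _ h; omega
  | succ j ih =>
    intro l hl hlen L hL hLj
    exact stage_step S S₀ e f hC hS hS₀ he hf _ j ih l hl hlen L hL hLj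

theorem gen_stable' {B : Finset ι} {C : ℕ → ℕ → ℕ} (hC : Coh K X B C)
    (hS : ∀ r, S r ⊆ B) (hS₀ : ∀ v, S₀ v ⊆ B)
    (he : ∀ w r j, e w r j ∈ (A (S r) : Submodule K (Fn K X)))
    (hf : ∀ v j, f v j ∈ (A (S₀ v) : Submodule K (Fn K X))) 
    (l : List Z) (hl : Gen S S₀ e f B l)
    (hlen : l.length = stage C (Fintype.card κ) (Fintype.card κ₀) (Fintype.card π) (B.card + 1))
    (L : Finset ι) (hL : L ⊆ B) : CI S S₀ e f l L ≤ CZ S S₀ e f L :=
  gen_stable S S₀ e f hC hS hS₀ he hf (B.card + 1) l hl hlen L hL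
    (Nat.lt_succ_of_le (card_le_card hL))

end

section generic

variable {ι : Type} [DecidableEq ι] {K : Type u} [Field K] {X : ι → Type v}
variable {κ κ₀ π : Type} [Fintype κ] [Fintype κ₀] [Fintype π]
  {Z : Type w} [AddCommGroup Z] [Module K Z]

/-- The vectors `w` whose condition is implied. -/
def impl (S : κ → Finset ι) (S₀ : κ₀ → Finset ι) (e : Z → κ → π → Fn K X)
    (f : κ₀ → π → Fn K X) (hadd : ∀ w w' r j, e (w + w') r j = e w r j + e w' r j)
    (hsmul : ∀ (c : K) w r j, e (c • w) r j = c • e w r j) (W : Submodule K (κ → Fn K X))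
    (L : Finset ι) : Submodule K Z where
  carrier := {w | ∀ β ∈ W, (fun j => ∑ r, e w r j * β r) ∈ Sp S₀ f L}
  add_mem' := by
    intro w w' h h' β hβ
    have := Submodule.add_mem _ (h β hβ) (h' β hβ)
    convert this using 1
    funext j
    simp [hadd, add_mul, sum_add_distrib]
  zero_mem' := by
    intro β hβ
    have h0 : ∀ r j, e 0 r j = 0 := by
      intro r j
      have := hsmul 0 0 r j
      simpa using this
    convert Submodule.zero_mem (Sp S₀ f L) using 1
    funext j
    simp [h0]
  smul_mem' := by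
    intro c w h β hβ
    have := Submodule.smul_mem _ c (h β hβ)
    convert this using 1
    funext j
    simp [hsmul, smul_sum]

/-- Over an infinite field generic lists exist, simultaneously for finitely many data. -/
theorem exists_gen [Infinite K] {𝒩 : Type} [Finite 𝒩] (B : Finset ι)
    (S : 𝒩 → κ → Finset ι) (S₀ : 𝒩 → κ₀ → Finset ι) (e : 𝒩 → Z → κ → π → Fn K X)
    (f : 𝒩 → κ₀ → π → Fn K X)
    (hadd : ∀ k w w' r j, e k (w + w') r j = e k w r j + e k w' r j)
    (hsmul : ∀ k (c : K) w r j, e k (c • w) r j = c • e k w r j) (n : ℕ) :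
    ∃ l : List Z, l.length = n ∧ ∀ k, Gen (S k) (S₀ k) (e k) (f k) B l := by
  classical
  induction n with
  | zero => exact ⟨[], rfl, fun k => trivial⟩
  | succ n ih =>
    obtain ⟨l, hlen, hgen⟩ := ih
    let p : 𝒩 × {L // L ∈ B.powerset} → Submodule K Z := fun kL =>
      if CI (S kL.1) (S₀ kL.1) (e kL.1) (f kL.1) l kL.2.1 ≤
        CZ (S kL.1) (S₀ kL.1) (e kL.1) (f kL.1) kL.2.1 then ⊥ else
        impl (S kL.1) (S₀ kL.1) (e kL.1) (f kL.1) (hadd kL.1) (hsmul kL.1)
          (CI (S kL.1) (S₀ kL.1) (e kL.1) (f kL.1) l kL.2.1) kL.2.1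
    by_cases hcov : (⋃ kL, (p kL : Set Z)) = Set.univ
    · obtain ⟨⟨k, L, hL⟩, htop⟩ := Subspace.exists_eq_top_of_iUnion_eq_univ hcov
      simp only [p] at htop
      split_ifs at htop with h
      · -- `Z` is trivial
        have hsub : ∀ z z' : Z, z = z' := by
          intro z z'
          have h1 : z ∈ (⊥ : Submodule K Z) := by rw [htop]; trivial
          have h2 : z' ∈ (⊥ : Submodule K Z) := by rw [htop]; trivial
          rw [Submodule.mem_bot] at h1 h2
          rw [h1, h2]
        refine ⟨0 :: l, by simp [hlen], fun k => ⟨hgen k, fun L hL => ?_⟩⟩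
        by_cases h' : CI (S k) (S₀ k) (e k) (f k) l L ≤ C1 (S k) (S₀ k) (e k) (f k) 0 L
        · left
          refine h'.trans ?_
          exact CP_mono _ _ _ _ (fun w _ => hsub w 0) L
        · exact Or.inr h'
      · exfalso
        apply h
        intro β hβ
        refine ⟨hβ.1, fun w _ => ?_⟩
        have : w ∈ (⊤ : Submodule K Z) := trivial
        rw [← htop] at this
        exact this β hβ
    · have : ∃ w : Z, ∀ kL, w ∉ p kL := by
        by_contra hne
        push Not at hne
        apply hcov
        ext w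
        simpa using hne w
      obtain ⟨w, hw⟩ := this
      refine ⟨w :: l, by simp [hlen], fun k => ⟨hgen k, fun L hL => ?_⟩⟩
      by_cases h : CI (S k) (S₀ k) (e k) (f k) l L ≤ CZ (S k) (S₀ k) (e k) (f k) L
      · exact Or.inl h
      · right
        intro h'
        have := hw (k, ⟨L, mem_powerset.2 hL⟩)
        simp only [p, h, if_false] at this
        apply this
        intro β hβ
        exact (h' hβ).2 w rfl

end generic

end Pool.Lib.MP_9444d7_co
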