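import Pool.Agent.Lib.MP_9444d7_co.Chain

/-!
# Uniform coherence
-/

set_option autoImplicit false
set_option linter.unusedSectionVars false
set_option linter.unusedVariables false

open Finset

namespace Pool.Lib.MP_9444d7_co

universe u v w

/-- The number of generators of the syzygies of `q` vectors of length `p` in `n` directions. -/
def cohBound : ℕ → ℕ → ℕ → ℕ
  | 0 => fun q _ => q
  | n + 1 => fun q p =>
    cohBound n (q + q * stage (cohBound n) q q p (n + 1)) (p * stage (cohBound n) q q p (n + 1)) +
      cohBound n q p

section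

variable {ι : Type} [DecidableEq ι] {K : Type u} [Field K] {X : ι → Type v}

theorem exists_span_fin {V : Type*} [AddCommGroup V] [Module K V] [FiniteDimensional K V]
    (W : Submodule K V) (n : ℕ) (hn : Module.finrank K V ≤ n) :
    ∃ g : Fin n → V, (∀ i, g i ∈ W) ∧ ∀ w ∈ W, ∃ c : Fin n → K, w = ∑ i, c i • g i := by
  have hle : Module.finrank K W ≤ n := (Submodule.finrank_le _).trans hn
  obtain ⟨k, rfl⟩ := Nat.exists_eq_add_of_le hle
  let bs := Module.finBasis K W
  refine ⟨Fin.addCases (fun i => (bs i : V)) (fun _ => 0), fun i => ?_, fun w hw => ?_⟩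
  · refine Fin.addCases (fun i => ?_) (fun i => ?_) i
    · simp
    · simp
  · refine ⟨Fin.addCases (fun i => bs.repr ⟨w, hw⟩ i) (fun _ => 0), ?_⟩
    rw [Fin.sum_univ_add]
    simp only [Fin.addCases_left, Fin.addCases_right, smul_zero, sum_const_zero, add_zero]
    have h := congrArg W.subtype (bs.sum_repr ⟨w, hw⟩)
    rw [map_sum] at h
    simp only [map_smul, Submodule.subtype_apply] at h
    exact h.symm

theorem coh_empty : Coh K X ∅ (cohBound 0) := by
  intro κ π _ _ S e hS he
  have hS' : ∀ r, S r = ∅ := fun r => subset_empty.1 (hS r)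
  show ∃ (Lg : Fin (Fintype.card κ) → Finset ι) (σ : Fin (Fintype.card κ) → κ → Fn K X), _
  by_cases hne : Nonempty (∀ i, X i)
  · obtain ⟨x₀⟩ := hne
    let W : Submodule K (κ → K) :=
      { carrier := {β | ∀ j, ∑ r, e r j x₀ * β r = 0}
        add_mem' := by
          intro a b ha hb j
          simp [mul_add, sum_add_distrib, ha j, hb j]
        zero_mem' := by intro j; simp
        smul_mem' := by
          intro c a ha j
          have : ∑ r, e r j x₀ * (c • a) r = c * ∑ r, e r j x₀ * a r := by
            rw [mul_sum]
            exact sum_congr rfl fun r _ => by simp; ring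
          rw [this, ha j, mul_zero] }
    obtain ⟨g, hg1, hg2⟩ := exists_span_fin W (Fintype.card κ) (by simp)
    refine ⟨fun _ => ∅, fun u r _ => g u r, fun u => Subset.refl _, fun u => ⟨fun r => ?_, fun j => ?_⟩,
      fun L hL β hβ => ?_⟩
    · rw [mem_H_of_subset (by rw [hS' r])]
      intro x y _; rfl
    · funext x
      have := hg1 u j
      rw [Finset.sum_apply]
      simp only [Pi.mul_apply, Pi.zero_apply]
      rw [← this]
      refine sum_congr rfl fun r _ => ?_
      congr 1
      have := he r j
      rw [hS' r] at this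
      exact this x x₀ (by simp)
    · have hL' : L = ∅ := subset_empty.1 hL
      subst hL'
      have hβ1 : ∀ r x, β r x = β r x₀ := by
        intro r x
        have := hβ.1 r
        rw [hS' r, mem_H_of_subset (Subset.refl _)] at this
        exact this x x₀ (by simp)
      have hW : (fun r => β r x₀) ∈ W := by
        intro j
        have := congrFun (hβ.2 j) x₀
        rw [Finset.sum_apply] at this
        simpa using this
      obtain ⟨c, hc⟩ := hg2 _ hW
      refine ⟨fun u _ => c u, fun u => ?_, fun r => ?_⟩
      · rw [mem_H_of_subset (Subset.refl _)]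
        intro x y _; rfl
      · funext x
        rw [hβ1 r x, Finset.sum_apply]
        have := congrFun hc r
        rw [Finset.sum_apply] at this
        simp only [Pi.smul_apply, smul_eq_mul] at this
        simp only [Pi.mul_apply]
        exact this
  · have hsub : Subsingleton (Fn K X) := ⟨fun f g => funext fun x => absurd ⟨x⟩ hne⟩
    refine ⟨fun _ => ∅, fun _ _ => 0, fun u => Subset.refl _, fun u => ⟨fun r => ?_, fun j =>
      Subsingleton.elim _ _⟩, fun L hL β hβ => ⟨fun _ => 0, fun u => Submodule.zero_mem _, fun r =>
      Subsingleton.elim _ _⟩⟩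
    exact Submodule.zero_mem _

/-- Data for the inductive step: the part of `e` depending on `b`, contracted. -/
def e₁ (b : ι) [Fintype (X b)] {κ π : Type} (S : κ → Finset ι) (e : κ → π → Fn K X)
    (z : X b → K) (r : κ) (j : π) : Fn K X :=
  if b ∈ S r then contr b z (e r j) else 0

/-- Degrees of `e₁`. -/
def S₁ (b : ι) {κ : Type} (S : κ → Finset ι) (r : κ) : Finset ι :=
  if b ∈ S r then (S r).erase b else ∅

/-- The part of `e` not depending on `b`. -/
def e₀ (b : ι) {κ π : Type} (S : κ → Finset ι) (e : κ → π → Fn K X) (r : κ) (j : π) : Fn K X :=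
  if b ∈ S r then 0 else e r j

/-- Degrees of `e₀`. -/
def S₀' (b : ι) {κ : Type} (S : κ → Finset ι) (r : κ) : Finset ι :=
  if b ∈ S r then ∅ else S r

section step

variable {b : ι} [Fintype (X b)] {B : Finset ι} (hb : b ∉ B) {κ π : Type} [Fintype κ] [Fintype π]
  {S : κ → Finset ι} {e : κ → π → Fn K X}

theorem S₁_subset (hS : ∀ r, S r ⊆ insert b B) (r : κ) : S₁ b S r ⊆ B := by
  unfold S₁
  split_ifs with h
  · exact subset_insert_iff.1 (hS r)
  · simp

theorem S₀'_subset (hS : ∀ r, S r ⊆ insert b B) (r : κ) : S₀' b S r ⊆ B := by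
  unfold S₀'
  split_ifs with h
  · simp
  · intro i hi
    have := hS r hi
    rw [mem_insert] at this
    rcases this with h' | h'
    · exact absurd (h' ▸ hi) h
    · exact h'

theorem e₁_mem (he : ∀ r j, e r j ∈ (A (S r) : Submodule K (Fn K X))) (z : X b → K) (r : κ)
    (j : π) : e₁ b S e z r j ∈ (A (S₁ b S r) : Submodule K (Fn K X)) := by
  unfold e₁ S₁
  split_ifs with h
  · exact contr_mem_A b (he r j)
  · exact Submodule.zero_mem _

theorem e₀_mem (he : ∀ r j, e r j ∈ (A (S r) : Submodule K (Fn K X))) (r : κ)
    (j : π) : e₀ b S e r j ∈ (A (S₀' b S r) : Submodule K (Fn K X)) := by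
  unfold e₀ S₀'
  split_ifs with h
  · exact Submodule.zero_mem _
  · exact he r j

theorem e₁_add (z w : X b → K) (r : κ) (j : π) :
    e₁ b S e (z + w) r j = e₁ b S e z r j + e₁ b S e w r j := by
  unfold e₁
  split_ifs with h
  · exact contr_vec_add b z w _
  · simp

theorem e₁_smul (c : K) (z : X b → K) (r : κ) (j : π) :
    e₁ b S e (c • z) r j = c • e₁ b S e z r j := by
  unfold e₁
  split_ifs with h
  · exact contr_vec_smul b c z _
  · simp

/-- Contraction of a coefficient. -/
theorem contr_mem_H {L : Finset ι} {T : Finset ι} (hbT : b ∉ T) {g : Fn K X}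
    (hg : g ∈ (H (insert b L) T : Submodule K (Fn K X))) (z : X b → K) (hbL : b ∉ L) :
    contr b z g ∈ (H L T : Submodule K (Fn K X)) := by
  by_cases hT : T ⊆ insert b L
  · have hT' : T ⊆ L := fun i hi => by
      rcases mem_insert.1 (hT hi) with h | h
      · exact absurd (h ▸ hi) hbT
      · exact h
    rw [mem_H_of_subset hT] at hg
    rw [mem_H_of_subset hT']
    have := contr_mem_A b (z := z) hg
    have h2 : (insert b L \ T).erase b = L \ T := by
      ext i
      simp only [mem_erase, mem_sdiff, mem_insert]
      constructor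
      · rintro ⟨h1, h2 | h2, h3⟩
        · exact absurd h2 h1
        · exact ⟨h2, h3⟩
      · rintro ⟨h1, h2⟩
        exact ⟨fun h => hbL (h ▸ h1), Or.inr h1, h2⟩
    rwa [h2] at this
  · have hz := eq_zero_of_mem_H hT hg
    rw [hz, contr_zero]
    exact Submodule.zero_mem _

theorem H_erase_eq {L T : Finset ι} (hbT : b ∈ T) (hbL : b ∉ L) :
    (H (insert b L) T : Submodule K (Fn K X)) = H L (T.erase b) := by
  unfold H
  have h1 : T ⊆ insert b L ↔ T.erase b ⊆ L := by
    rw [← subset_insert_iff]
  have h2 : insert b L \ T = L \ T.erase b := by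
    ext i
    simp only [mem_sdiff, mem_insert, mem_erase, not_and]
    constructor
    · rintro ⟨h | h, h'⟩
      · exact absurd (h ▸ hbT) h'
      · exact ⟨h, fun _ => h'⟩
    · rintro ⟨h, h'⟩
      exact ⟨Or.inr h, h' (fun hh => hbL (hh ▸ h))⟩
  by_cases h : T ⊆ insert b L
  · rw [if_pos h, if_pos (h1.1 h), h2]
  · rw [if_neg h, if_neg (fun hh => h (h1.2 hh))]

theorem glue_mem_H {L T : Finset ι} (hbT : b ∉ T) {g : X b → Fn K X}
    (hg : ∀ y, g y ∈ (H L T : Submodule K (Fn K X))) (hbL : b ∉ L) :
    glue b g ∈ (H (insert b L) T : Submodule K (Fn K X)) := by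
  by_cases hT : T ⊆ L
  · have hT' : T ⊆ insert b L := hT.trans (subset_insert _ _)
    rw [mem_H_of_subset hT']
    have h2 : insert b L \ T = insert b (L \ T) := by
      rw [insert_sdiff_of_notMem _ hbT]
    rw [h2]
    refine glue_mem_A fun y => ?_
    have := hg y
    rwa [mem_H_of_subset hT] at this
  · have hz : g = fun _ => 0 := funext fun y => eq_zero_of_mem_H hT (hg y)
    rw [hz]
    have : glue b (fun _ : X b => (0 : Fn K X)) = 0 := rfl
    rw [this]
    exact Submodule.zero_mem _

theorem sum_split_apply [DecidableEq (X b)] (β : κ → Fn K X) (j : π) (x : ∀ i, X i) :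
    (∑ r, e r j * β r) x =
      (∑ r, e₁ b S e (Pi.single (x b) 1) r j * (if b ∈ S r then β r else 0)) x +
      (∑ r, e₀ b S e r j * β r) x := by
  rw [Finset.sum_apply, Finset.sum_apply, Finset.sum_apply, ← sum_add_distrib]
  refine sum_congr rfl fun r _ => ?_
  simp only [Pi.mul_apply, e₁, e₀]
  split_ifs with h
  · rw [contr_single_self]; simp
  · simp

/-- The contraction of a relation. -/
theorem contr_rel (he : ∀ r j, e r j ∈ (A (S r) : Submodule K (Fn K X)))
    {L : Finset ι} (hbL : b ∉ L) {β : κ → Fn K X}
    (hβ : ∀ r, β r ∈ (H (insert b L) (S r) : Submodule K (Fn K X))) (z : X b → K) (j : π) :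
    contr b z (∑ r, e r j * β r) =
      (∑ r, e₁ b S e z r j * (if b ∈ S r then β r else 0)) +
      ∑ r, e₀ b S e r j * contr b z (β r) := by
  rw [contr_sum, ← sum_add_distrib]
  refine sum_congr rfl fun r _ => ?_
  simp only [e₁, e₀]
  split_ifs with h
  · rw [zero_mul, add_zero]
    have := hβ r
    rw [H_erase_eq h hbL] at this
    by_cases hs : (S r).erase b ⊆ L
    · rw [mem_H_of_subset hs] at this
      refine contr_mul_right b (S := L \ (S r).erase b) ?_ z _ this
      simp [hbL]
    · rw [eq_zero_of_mem_H hs this]
      simp [contr_zero]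
  · rw [zero_mul, zero_add]
    exact contr_mul_left b h z _ (he r j)

theorem coh_step [Infinite K] {C : ℕ → ℕ → ℕ} (hC : Coh K X B C) (hb : b ∉ B) :
    Coh K X (insert b B) (fun q p =>
      C (q + q * stage C q q p (B.card + 1)) (p * stage C q q p (B.card + 1)) + C q p) := by
  classical
  intro κ π _ _ S e hS he
  set q := Fintype.card κ with hq
  set p := Fintype.card π with hp
  set t := stage C q q p (B.card + 1) with ht
  -- the generic list
  obtain ⟨l, hlen, hgen⟩ := exists_gen (K := K) (Z := X b → K) (𝒩 := Unit) B
    (fun _ => S₁ b S) (fun _ => S₀' b S) (fun _ => e₁ b S e) (fun _ => e₀ b S e)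
    (fun _ => e₁_add) (fun _ => e₁_smul) t
  have hgen := hgen ()
  have hS₁ := S₁_subset (κ := κ) hS
  have hS₀ := S₀'_subset (κ := κ) hS
  have he₁ := fun z r j => e₁_mem (b := b) he z r j
  have he₀ := fun r j => e₀_mem (b := b) he r j
  have hst : ∀ L, L ⊆ B → CI (S₁ b S) (S₀' b S) (e₁ b S e) (e₀ b S e) l L ≤
      CZ (S₁ b S) (S₀' b S) (e₁ b S e) (e₀ b S e) L := fun L hL =>
    gen_stable' (S₁ b S) (S₀' b S) (e₁ b S e) (e₀ b S e) hC hS₁ hS₀ he₁ he₀ l hgen hlen L hL
  obtain ⟨Lg, σ, hLg, hσ, hgens⟩ := exists_gens (S₁ b S) (S₀' b S) (e₁ b S e) (e₀ b S e)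
    hC hS₁ hS₀ he₁ he₀ l t hlen
  obtain ⟨Lg', τ, hLg', hτ, hgens'⟩ := hC κ π (S₀' b S) (e₀ b S e) hS₀ he₀
  -- lifts of the generators
  have hlift : ∀ u, ∀ y : X b, ∃ γ : κ → Fn K X,
      (∀ r, γ r ∈ (H (Lg u) (S₀' b S r) : Submodule K (Fn K X))) ∧
      ∀ j, (∑ r, e₁ b S e (Pi.single y 1) r j * σ u r) = ∑ r, e₀ b S e r j * γ r := by
    intro u y
    exact (hst (Lg u) (hLg u) (hσ u)).2 (Pi.single y 1) trivial
  choose γ hγ1 hγ2 using hlift
  let σ' : Fin (C (q + q * t) (p * t)) → κ → Fn K X := fun u r =>
    if b ∈ S r then σ u r else - glue b (fun y => γ u y r)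
  let τ' : Fin (C q p) → κ → Fn K X := fun u r => if b ∈ S r then 0 else τ u r
  have hbL : ∀ L, L ⊆ B → b ∉ L := fun L hL h => hb (hL h)
  have hσ' : ∀ u, IsSyz S e (insert b (Lg u)) (σ' u) := by
    intro u
    refine ⟨fun r => ?_, fun j => ?_⟩
    · simp only [σ']
      split_ifs with h
      · rw [H_erase_eq h (hbL _ (hLg u))]
        have := (hσ u).1 r
        simpa [S₁, h] using this
      · refine Submodule.neg_mem _ (glue_mem_H h (fun y => ?_) (hbL _ (hLg u)))
        have := hγ1 u y r
        simpa [S₀', h] using this
    · funext x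
      rw [sum_split_apply (b := b) (S := S)]
      have h1 := congrFun (hγ2 u (x b) j) x
      have h2 : (∑ r, e₁ b S e (Pi.single (x b) 1) r j * (if b ∈ S r then σ' u r else 0)) =
          ∑ r, e₁ b S e (Pi.single (x b) 1) r j * σ u r := by
        refine sum_congr rfl fun r _ => ?_
        simp only [σ']
        by_cases h : b ∈ S r
        · simp [h]
        · simp [h, e₁]
      have h3 : (∑ r, e₀ b S e r j * σ' u r) x = - (∑ r, e₀ b S e r j * γ u (x b) r) x := by
        rw [Finset.sum_apply, Finset.sum_apply, ← sum_neg_distrib]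
        refine sum_congr rfl fun r _ => ?_
        simp only [σ', Pi.mul_apply]
        by_cases h : b ∈ S r
        · simp [h, e₀]
        · simp [h, glue]
      rw [h2, h3, h1]
      simp
  have hτ' : ∀ u, IsSyz S e (Lg' u) (τ' u) := by
    intro u
    refine ⟨fun r => ?_, fun j => ?_⟩
    · simp only [τ']
      split_ifs with h
      · exact Submodule.zero_mem _
      · have := (hτ u).1 r
        simpa [S₀', h] using this
    · have := (hτ u).2 j
      rw [← this]
      refine sum_congr rfl fun r _ => ?_
      simp only [τ', e₀]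
      by_cases h : b ∈ S r <;> simp [h]
  refine ⟨Fin.addCases (fun u => insert b (Lg u)) Lg', Fin.addCases σ' τ', ?_, ?_, ?_⟩
  · intro u
    refine Fin.addCases (fun u => ?_) (fun u => ?_) u
    · simp only [Fin.addCases_left]
      exact insert_subset_insert b (hLg u)
    · simp only [Fin.addCases_right]
      exact (hLg' u).trans (subset_insert _ _)
  · intro u
    refine Fin.addCases (fun u => ?_) (fun u => ?_) u
    · simp only [Fin.addCases_left]
      exact hσ' u
    · simp only [Fin.addCases_right]
      exact hτ' u
  · intro L hL β hβ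
    by_cases hbL' : b ∈ L
    · -- `L = insert b L'`
      obtain ⟨L', hbL'', rfl⟩ : ∃ L', b ∉ L' ∧ insert b L' = L :=
        ⟨L.erase b, notMem_erase _ _, insert_erase hbL'⟩
      have hL' : L' ⊆ B := by
        intro i hi
        have := hL (mem_insert_of_mem hi)
        rcases mem_insert.1 this with h | h
        · exact absurd (h ▸ hi) hbL''
        · exact h
      -- the part depending on `b`
      have hβκ : (fun r => if b ∈ S r then β r else 0) ∈
          CI (S₁ b S) (S₀' b S) (e₁ b S e) (e₀ b S e) l L' := by
        refine ⟨fun r => ?_, fun z _ => ?_⟩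
        · dsimp only
          split_ifs with h
          · have := hβ.1 r
            rw [H_erase_eq h hbL''] at this
            simpa [S₁, h] using this
          · exact Submodule.zero_mem _
        · refine ⟨fun r => if b ∈ S r then 0 else - contr b z (β r), fun r => ?_, fun j => ?_⟩
          · dsimp only
            split_ifs with h
            · exact Submodule.zero_mem _
            · refine Submodule.neg_mem _ ?_
              have := contr_mem_H h (hβ.1 r) z hbL''
              simpa [S₀', h] using this
          · have h1 := contr_rel he hbL'' hβ.1 z j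
            rw [hβ.2 j, contr_zero] at h1
            have h2 : (∑ r, e₀ b S e r j * (if b ∈ S r then 0 else - contr b z (β r))) =
                - ∑ r, e₀ b S e r j * contr b z (β r) := by
              rw [← sum_neg_distrib]
              refine sum_congr rfl fun r _ => ?_
              by_cases h : b ∈ S r
              · simp [h, e₀]
              · simp [h]
            rw [h2]
            exact eq_neg_of_add_eq_zero_left h1.symm
      obtain ⟨α, hα1, hα2⟩ := hgens L' hL' _ hβκ
      have hα1' : ∀ u, α u ∈ (H (insert b L') (insert b (Lg u)) : Submodule K (Fn K X)) := by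
        intro u
        rw [H_erase_eq (mem_insert_self _ _) hbL'', erase_insert (hbL _ (hLg u))]
        exact hα1 u
      -- subtract
      let β' : κ → Fn K X := fun r => β r - ∑ u, α u * σ' u r
      have hβ'1 : ∀ r, β' r ∈ (H (insert b L') (S r) : Submodule K (Fn K X)) := fun r =>
        Submodule.sub_mem _ (hβ.1 r) (Submodule.sum_mem _ fun u _ =>
          H_mul (hα1' u) ((hσ' u).1 r))
      have hβ'2 : ∀ j, ∑ r, e r j * β' r = 0 := by
        intro j
        simp only [β', mul_sub, sum_sub_distrib]
        rw [hβ.2 j, zero_sub, neg_eq_zero]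
        have : ∀ r, e r j * ∑ u, α u * σ' u r = ∑ u, α u * (e r j * σ' u r) := by
          intro r
          rw [mul_sum]
          exact sum_congr rfl fun u _ => by ring
        simp only [this]
        rw [sum_comm]
        refine sum_eq_zero fun u _ => ?_
        rw [← mul_sum, (hσ' u).2 j, mul_zero]
      have hβ'3 : ∀ r, b ∈ S r → β' r = 0 := by
        intro r hr
        have := hα2 r
        simp only [hr, if_true] at this
        simp only [β', σ', hr, if_true]
        rw [this, sub_self]
      -- slices
      have hsl : ∀ y : X b, ∃ a : Fin (C q p) → Fn K X,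
          (∀ u, a u ∈ (H L' (Lg' u) : Submodule K (Fn K X))) ∧
          ∀ r, (contr b (Pi.single y (1 : K)) (β' r)) = ∑ u, a u * τ u r := by
        intro y
        refine hgens' L' hL' (fun r => contr b (Pi.single y (1 : K)) (β' r)) ⟨fun r => ?_,
          fun j => ?_⟩
        · dsimp only
          by_cases h : b ∈ S r
          · rw [hβ'3 r h, contr_zero]
            exact Submodule.zero_mem _
          · have := contr_mem_H h (hβ'1 r) (Pi.single y 1) hbL''
            simpa [S₀', h] using this
        · have h1 := contr_rel he hbL'' hβ'1 (Pi.single y 1) j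
          rw [hβ'2 j, contr_zero] at h1
          have h2 : (∑ r, e₁ b S e (Pi.single y 1) r j * (if b ∈ S r then β' r else 0)) = 0 := by
            refine sum_eq_zero fun r _ => ?_
            by_cases h : b ∈ S r
            · simp [h, hβ'3 r h]
            · simp [h]
          rw [h2, zero_add] at h1
          exact h1.symm
      choose a ha1 ha2 using hsl
      refine ⟨Fin.addCases α (fun u => glue b (fun y => a y u)), ?_, fun r => ?_⟩
      · intro u
        refine Fin.addCases (fun u => ?_) (fun u => ?_) u
        · simp only [Fin.addCases_left]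
          exact hα1' u
        · simp only [Fin.addCases_right]
          exact glue_mem_H (hbL _ (hLg' u)) (fun y => ha1 y u) hbL''
      · rw [Fin.sum_univ_add]
        simp only [Fin.addCases_left, Fin.addCases_right]
        have h1 : β r = β' r + ∑ u, α u * σ' u r := by simp [β']
        rw [h1, add_comm]
        congr 1
        by_cases h : b ∈ S r
        · rw [hβ'3 r h]
          symm
          refine sum_eq_zero fun u _ => ?_
          simp [τ', h]
        · funext x
          have h2 := congrFun (ha2 (x b) r) x
          rw [contr_single_self, Finset.sum_apply] at h2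
          rw [h2, Finset.sum_apply]
          refine sum_congr rfl fun u _ => ?_
          simp [τ', h, glue]
    · -- `b ∉ L`
      have hL' : L ⊆ B := by
        intro i hi
        rcases mem_insert.1 (hL hi) with h | h
        · exact absurd (h ▸ hi) hbL'
        · exact h
      have hβ0 : ∀ r, b ∈ S r → β r = 0 := fun r hr =>
        eq_zero_of_mem_H (fun h => hbL' (h hr)) (hβ.1 r)
      obtain ⟨a, ha1, ha2⟩ := hgens' L hL' β ⟨fun r => by
        by_cases h : b ∈ S r
        · rw [hβ0 r h]; exact Submodule.zero_mem _
        · have := hβ.1 r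
          simpa [S₀', h] using this, fun j => by
        rw [← hβ.2 j]
        refine sum_congr rfl fun r _ => ?_
        by_cases h : b ∈ S r
        · rw [hβ0 r h]; simp
        · simp [e₀, h]⟩
      refine ⟨Fin.addCases (fun _ => 0) a, ?_, fun r => ?_⟩
      · intro u
        refine Fin.addCases (fun u => ?_) (fun u => ?_) u
        · simp only [Fin.addCases_left]
          exact Submodule.zero_mem _
        · simp only [Fin.addCases_right]
          exact ha1 u
      · rw [Fin.sum_univ_add]
        simp only [Fin.addCases_left, Fin.addCases_right, zero_mul, sum_const_zero, zero_add]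
        by_cases h : b ∈ S r
        · rw [hβ0 r h]
          symm
          refine sum_eq_zero fun u _ => ?_
          simp [τ', h]
        · rw [ha2 r]
          refine sum_congr rfl fun u _ => ?_
          simp [τ', h]

end step

/-- **Uniform coherence** of multilinear functions. -/
theorem coh [Infinite K] [∀ i, Fintype (X i)] (B : Finset ι) : Coh K X B (cohBound B.card) := by
  induction B using Finset.induction_on with
  | empty => exact coh_empty
  | insert b B hb ih =>
    rw [card_insert_of_notMem hb]
    exact coh_step ih hb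

end

end Pool.Lib.MP_9444d7_co
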