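import Mathlib

/-!
# Order-`d` tensors and the `R`-rank
-/

set_option autoImplicit false

namespace Pool.MP_9444d7_co

universe u v

variable {d : ℕ} {F : Type u} [Field F] {Q : Fin d → Type v}

/-- An order-`d` tensor `T : Q₁ × ⋯ × Q_d → F`. -/
abbrev Tensor (F : Type u) (Q : Fin d → Type v) : Type (max u v) := (∀ α, Q α) → F

/-- `T` has `R`-rank at most one: for some partition `P ∈ R` of `[d]` and some functions `a I`
of `x(I) = (x_α)_{α ∈ I}`, `T(x) = ∏_{I ∈ P} a I (x(I))` for all `x`. -/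
def RankLEOne (R : Set (Finpartition (Finset.univ : Finset (Fin d)))) (T : Tensor F Q) : Prop :=
  ∃ P ∈ R, ∃ a : ∀ I : Finset (Fin d), (∀ α : {α // α ∈ I}, Q α) → F,
    ∀ x, T x = ∏ I ∈ P.parts, a I (fun α => x α)

/-- `T` is a sum of `k` tensors of `R`-rank at most one. -/
def IsSumOf (R : Set (Finpartition (Finset.univ : Finset (Fin d)))) (k : ℕ) (T : Tensor F Q) :
    Prop :=
  ∃ f : Fin k → Tensor F Q, (∀ i, RankLEOne R (f i)) ∧ T = ∑ i, f i

/-- The `R`-rank of `T`: the least `k ≥ 0` such that `T` is a sum of `k` tensors of `R`-rank at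
most one. -/
noncomputable def rk (R : Set (Finpartition (Finset.univ : Finset (Fin d)))) (T : Tensor F Q) :
    ℕ :=
  sInf {k | IsSumOf R k T}

/-- The restriction `T(X₁ × ⋯ × X_d)`. -/
def restrict (T : Tensor F Q) (X : ∀ α, Finset (Q α)) :
    Tensor F (fun α => {x : Q α // x ∈ X α}) :=
  fun x => T (fun α => x α)

end Pool.MP_9444d7_co
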