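import Pool.Agent.Lib.MP_9444d7_co.Defs

/-!
# Basic facts on the `R`-rank
-/

set_option autoImplicit false
set_option linter.unusedSectionVars false

open Finset

namespace Pool.MP_9444d7_co

universe u v

variable {d : ℕ} {F : Type u} [Field F] {Q : Fin d → Type v}
  {R : Set (Finpartition (Finset.univ : Finset (Fin d)))}

theorem parts_nonempty (hd : 0 < d) (P : Finpartition (Finset.univ : Finset (Fin d))) :
    P.parts.Nonempty := by
  apply P.parts_nonempty
  rw [Ne, Finset.bot_eq_empty, Finset.univ_eq_empty_iff]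
  intro h
  exact h.elim ⟨0, hd⟩

theorem rankLEOne_zero (hd : 0 < d) (hR : R.Nonempty) : RankLEOne R (0 : Tensor F Q) := by
  obtain ⟨P, hP⟩ := hR
  refine ⟨P, hP, fun _ _ => 0, fun x => ?_⟩
  obtain ⟨I, hI⟩ := parts_nonempty hd P
  rw [Finset.prod_eq_zero hI rfl]
  rfl

theorem IsSumOf.mono (hd : 0 < d) (hR : R.Nonempty) {k k' : ℕ} (h : k ≤ k') {T : Tensor F Q}
    (hT : IsSumOf R k T) : IsSumOf R k' T := by
  obtain ⟨m, rfl⟩ := Nat.exists_eq_add_of_le h
  obtain ⟨f, hf, rfl⟩ := hT
  refine ⟨Fin.addCases f (fun _ => 0), fun i => ?_, ?_⟩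
  · refine Fin.addCases (fun i => ?_) (fun i => ?_) i
    · simp only [Fin.addCases_left]; exact hf i
    · simp only [Fin.addCases_right]; exact rankLEOne_zero hd hR
  · rw [Fin.sum_univ_add]
    simp

theorem exists_isSumOf (hd : 0 < d) (hR : R.Nonempty) [∀ α, Finite (Q α)] (T : Tensor F Q) :
    ∃ k, IsSumOf R k T := by
  classical
  obtain ⟨P, hP⟩ := hR
  obtain ⟨I₀, hI₀⟩ := parts_nonempty hd P
  have : Fintype (∀ α, Q α) := Fintype.ofFinite _
  let E := (Fintype.equivFin (∀ α, Q α)).symm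
  refine ⟨Fintype.card (∀ α, Q α), fun i x => if x = E i then T (E i) else 0, fun i => ?_, ?_⟩
  · refine ⟨P, hP, fun I z => if z = (fun α : {α // α ∈ I} => E i α) then (if I = I₀ then T (E i) else 1) else 0,
      fun x => ?_⟩
    by_cases hx : x = E i
    · subst hx
      simp only [if_true]
      rw [Finset.prod_ite_eq' P.parts I₀ (fun _ => T (E i))]
      simp [hI₀]
    · dsimp only
      rw [if_neg hx]
      symm
      obtain ⟨α, hα⟩ : ∃ α, x α ≠ E i α := by
        by_contra hne
        push Not at hne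
        exact hx (funext hne)
      obtain ⟨I, hI, hαI⟩ := P.exists_mem (mem_univ α)
      refine Finset.prod_eq_zero hI ?_
      rw [if_neg]
      intro h
      exact hα (congrFun h ⟨α, hαI⟩)
  · funext x
    rw [Finset.sum_apply, ← E.symm.sum_comp]
    simp

theorem le_rk_iff (hd : 0 < d) (hR : R.Nonempty) [∀ α, Finite (Q α)] (T : Tensor F Q) {l : ℕ}
    (hl : 1 ≤ l) : l ≤ rk R T ↔ ¬ IsSumOf R (l - 1) T := by
  constructor
  · intro h hT
    have : rk R T ≤ l - 1 := Nat.sInf_le hT
    omega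
  · intro h
    refine le_csInf (exists_isSumOf hd hR T) fun k hk => ?_
    by_contra hlt
    exact h (IsSumOf.mono hd hR (by omega) hk)

/-- `T` agrees on `∏ X α` with a sum of `q` tensors of `R`-rank at most one. -/
def SumOn (R : Set (Finpartition (Finset.univ : Finset (Fin d)))) (q : ℕ) (T : Tensor F Q)
    (X : ∀ α, Finset (Q α)) : Prop :=
  ∃ f : Fin q → Tensor F Q, (∀ i, RankLEOne R (f i)) ∧
    ∀ x : (∀ α, Q α), (∀ α, x α ∈ X α) → T x = ∑ i, f i x

theorem isSumOf_restrict_iff (q : ℕ) (T : Tensor F Q) (X : ∀ α, Finset (Q α)) :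
    IsSumOf R q (restrict T X) ↔ SumOn R q T X := by
  classical
  constructor
  · rintro ⟨f, hf, hT⟩
    choose P hP a ha using hf
    refine ⟨fun i x => ∏ I ∈ (P i).parts, if h : ∀ α : {α // α ∈ I}, x α ∈ X α then
      a i I (fun α => ⟨x α, h α⟩) else 0, fun i => ⟨P i, hP i, fun I z =>
      if h : ∀ α : {α // α ∈ I}, z α ∈ X α then a i I (fun α => ⟨z α, h α⟩) else 0,
      fun x => rfl⟩, fun x hx => ?_⟩
    have h1 := congrFun hT (fun α => ⟨x α, hx α⟩)
    rw [Finset.sum_apply] at h1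
    change T x = _ at h1
    rw [h1]
    refine sum_congr rfl fun i _ => ?_
    rw [ha i]
    refine prod_congr rfl fun I _ => ?_
    rw [dif_pos (fun α : {α // α ∈ I} => hx α)]
  · rintro ⟨f, hf, hT⟩
    choose P hP a ha using hf
    refine ⟨fun i => restrict (f i) X, fun i => ⟨P i, hP i, fun I z => a i I (fun α => z α),
      fun x => ?_⟩, ?_⟩
    · exact ha i _
    · funext x
      rw [Finset.sum_apply]
      exact hT (fun α => x α) (fun α => (x α).2)

theorem sumOn_univ [∀ α, Fintype (Q α)] (q : ℕ) (T : Tensor F Q) :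
    SumOn R q T (fun _ => Finset.univ) ↔ IsSumOf R q T := by
  constructor
  · rintro ⟨f, hf, hT⟩
    refine ⟨f, hf, ?_⟩
    funext x
    rw [Finset.sum_apply]
    exact hT x (fun α => mem_univ _)
  · rintro ⟨f, hf, hT⟩
    refine ⟨f, hf, fun x _ => ?_⟩
    rw [hT, Finset.sum_apply]

end Pool.MP_9444d7_co
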