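import Pool.Agent.Lib.MP_9444d7_co.Test
import Pool.Agent.Lib.MP_9444d7_co.Rank

/-!
# Simultaneous high-rank minors
-/

set_option autoImplicit false
set_option linter.unusedSectionVars false
set_option linter.unusedVariables false

open Finset Pool.Lib.MP_9444d7_co

namespace Pool.MP_9444d7_co

universe u v

/-- Descent of solutions of linear systems from an extension field. -/
theorem descent {ι : Type} [DecidableEq ι] {F K : Type u} [Field F] [Field K] [Algebra F K]
    {Y : ι → Type v} {κ : Type} [Fintype κ] (S : κ → Finset ι) (B : Finset ι)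
    (e : κ → Fn F Y) (c : Fn F Y) (γ : κ → Fn K Y)
    (hγ : ∀ r, γ r ∈ (H B (S r) : Submodule K (Fn K Y)))
    (h : ∀ x, algebraMap F K (c x) = ∑ r, algebraMap F K (e r x) * γ r x) :
    ∃ γ' : κ → Fn F Y, (∀ r, γ' r ∈ (H B (S r) : Submodule F (Fn F Y))) ∧
      ∀ x, c x = ∑ r, e r x * γ' r x := by
  obtain ⟨p, hp⟩ := LinearMap.exists_leftInverse_of_injective (Algebra.linearMap F K)
    (LinearMap.ker_eq_bot.2 (algebraMap F K).injective)
  have hp' : ∀ a : F, p (algebraMap F K a) = a := fun a => by
    have := congrArg (fun f : F →ₗ[F] F => f a) hp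
    simpa using this
  refine ⟨fun r x => p (γ r x), fun r => ?_, fun x => ?_⟩
  · by_cases hs : S r ⊆ B
    · have := hγ r
      rw [mem_H_of_subset hs] at this ⊢
      intro x y hxy
      simp only
      rw [this x y hxy]
    · have h0 := eq_zero_of_mem_H hs (hγ r)
      have : (fun x => p (γ r x)) = 0 := by
        funext x
        simp [h0]
      dsimp only
      rw [this]
      exact Submodule.zero_mem _
  · have h1 := congrArg p (h x)
    rw [hp', map_sum] at h1
    rw [h1]
    refine sum_congr rfl fun r _ => ?_
    rw [← Algebra.smul_def, map_smul, smul_eq_mul]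

section

variable {d : ℕ} {F : Type u} [Field F]

/-- The factors of a rank one tensor not containing the direction `α`. -/
def eFac {Y : Fin d → Type v} (α : Fin d) (P : Finpartition (Finset.univ : Finset (Fin d)))
    (a : ∀ I : Finset (Fin d), (∀ β : {β // β ∈ I}, Y β) → F) : Fn F Y :=
  fun x => ∏ I ∈ P.parts.erase (P.part α), a I (fun β => x β)

theorem eFac_mem {Y : Fin d → Type v} (α : Fin d)
    (P : Finpartition (Finset.univ : Finset (Fin d)))
    (a : ∀ I : Finset (Fin d), (∀ β : {β // β ∈ I}, Y β) → F) :
    eFac α P a ∈ (A (Finset.univ \ P.part α) : Submodule F (Fn F Y)) := by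
  intro x y h
  unfold eFac
  refine prod_congr rfl fun I hI => ?_
  congr 1
  funext β
  refine h β ?_
  rw [mem_sdiff]
  refine ⟨mem_univ _, fun hβ => ?_⟩
  rw [mem_erase] at hI
  apply hI.1
  exact (P.part_eq_of_mem hI.2 β.2).symm.trans (P.part_eq_of_mem
    (P.part_mem.2 (mem_univ α)) hβ)

theorem prod_eq_eFac_mul {Y : Fin d → Type v} (α : Fin d)
    (P : Finpartition (Finset.univ : Finset (Fin d)))
    (a : ∀ I : Finset (Fin d), (∀ β : {β // β ∈ I}, Y β) → F) (x : ∀ β, Y β) :
    ∏ I ∈ P.parts, a I (fun β => x β) = eFac α P a x * a (P.part α) (fun β => x β) := by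
  unfold eFac
  rw [mul_comm, mul_prod_erase P.parts (fun I => a I (fun β => x β))
    (P.part_mem.2 (mem_univ α))]

theorem sdiff_sub (α : Fin d) (P : Finpartition (Finset.univ : Finset (Fin d))) :
    (Finset.univ \ P.part α) ⊆ (Finset.univ.erase α : Finset (Fin d)) := by
  intro β hβ
  rw [mem_erase]
  refine ⟨fun h => ?_, mem_univ _⟩
  subst h
  rw [mem_sdiff] at hβ
  exact hβ.2 (P.mem_part_self.2 (mem_univ _))

/-- The value of the last factor on a slice is an admissible coefficient. -/
theorem lastFac_mem {Y : Fin d → Type v} (α : Fin d)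
    (P : Finpartition (Finset.univ : Finset (Fin d)))
    (a : ∀ I : Finset (Fin d), (∀ β : {β // β ∈ I}, Y β) → F) (y : Y α) :
    (fun x : (∀ β, Y β) => a (P.part α) (fun β => Function.update x α y β)) ∈
      (H (Finset.univ.erase α) (Finset.univ \ P.part α) : Submodule F (Fn F Y)) := by
  rw [mem_H_of_subset (sdiff_sub α P)]
  intro x x' h
  simp only
  congr 1
  funext β
  by_cases hβ : (β : Fin d) = α
  · obtain ⟨β, hβ'⟩ := β
    simp only at hβ
    subst hβ
    simp
  · rw [Function.update_of_ne hβ, Function.update_of_ne hβ]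
    refine h β ?_
    rw [mem_sdiff, mem_erase, mem_sdiff]
    exact ⟨⟨hβ, mem_univ _⟩, fun hh => hh.2 β.2⟩

theorem rankLEOne_mul {Y : Fin d → Type v} (α : Fin d)
    {R : Set (Finpartition (Finset.univ : Finset (Fin d)))}
    {P : Finpartition (Finset.univ : Finset (Fin d))} (hP : P ∈ R)
    (a : ∀ I : Finset (Fin d), (∀ β : {β // β ∈ I}, Y β) → F) (b : Fn F Y)
    (hb : b ∈ (A (P.part α) : Submodule F (Fn F Y))) :
    RankLEOne R (fun x => eFac α P a x * b x) := by
  classical
  refine ⟨P, hP, fun I z => if I = P.part α then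
    (if hne : Nonempty (∀ β, Y β) then
      b (fun β => if hβ : β ∈ I then z ⟨β, hβ⟩ else hne.some β) else 0) else a I z, fun x => ?_⟩
  change eFac α P a x * b x = _
  rw [← mul_prod_erase P.parts _ (P.part_mem.2 (mem_univ α)), mul_comm]
  refine congrArg₂ (· * ·) ?_ ?_
  · dsimp only
    rw [if_pos rfl, dif_pos ⟨x⟩]
    refine hb _ _ fun β hβ => ?_
    rw [dif_pos hβ]
  · unfold eFac
    refine prod_congr rfl fun I hI => ?_
    dsimp only
    rw [if_neg (ne_of_mem_erase hI)]

/-- The key bound for a critical family. -/
theorem critical_bound {Y : Fin d → Type v} [∀ β, Fintype (Y β)] (α : Fin d)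
    (R : Set (Finpartition (Finset.univ : Finset (Fin d)))) (q s : ℕ)
    (T : Fin s → Tensor F Y) (h : Y α → Fin s → F)
    (hlow : ∀ y, ∃ f : Fin q → Tensor F Y, (∀ i, RankLEOne R (f i)) ∧
      ∀ x : (∀ β, Y β), x α ≠ y → (∑ i, h y i • T i) x = ∑ i, f i x)
    (hhigh : ∀ y, ¬ IsSumOf R q (∑ i, h y i • T i)) :
    Fintype.card (Y α) ≤ s * univBound (d - 1) q 1 := by
  classical
  choose f hf hfT using hlow
  choose P hP a ha using hf
  let K := FractionRing (Polynomial F)
  let _ : Field K := inferInstance
  let _ : Algebra F K := inferInstance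
  have : Infinite K := Infinite.of_injective (algebraMap (Polynomial F) K)
    (IsFractionRing.injective _ _)
  let B : Finset (Fin d) := Finset.univ.erase α
  have hBcard : B.card = d - 1 := by simp [B]
  -- the data
  let S : Y α → Fin q → Finset (Fin d) := fun y i => Finset.univ \ (P y i).part α
  let e : Y α → Fin q → Fn F Y := fun y i => eFac α (P y i) (a y i)
  let sl : Y α → (Fin s → F) → Fn F Y := fun y v x => (∑ i, v i • T i) (Function.update x α y)
  -- nonsolvability over `F`
  have hns : ∀ y, ¬ ∃ γ : Fin q → Fn F Y, (∀ i, γ i ∈ (H B (S y i) : Submodule F (Fn F Y))) ∧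
      ∀ x, sl y (h y) x = ∑ i, e y i x * γ i x := by
    rintro y ⟨γ, hγ1, hγ2⟩
    apply hhigh y
    let bf : Fin q → Fn F Y := fun i x => if x α = y then γ i x else
      a y i ((P y i).part α) (fun β => x β)
    refine ⟨fun i x => eFac α (P y i) (a y i) x * bf i x, fun i =>
      rankLEOne_mul α (hP y i) (a y i) (bf i) ?_, ?_⟩
    · intro x x' hx
      have hα : x α = x' α := hx α ((P y i).mem_part_self.2 (mem_univ _))
      simp only [bf, ← hα]
      by_cases hy : x α = y
      · rw [if_pos hy, if_pos hy]
        have := hγ1 i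
        rw [mem_H_of_subset (sdiff_sub α (P y i))] at this
        refine this _ _ fun β hβ => hx β ?_
        rw [mem_sdiff, mem_sdiff] at hβ
        by_contra hn
        exact hβ.2 ⟨mem_univ _, hn⟩
      · rw [if_neg hy, if_neg hy]
        congr 1
        funext β
        exact hx β β.2
    · funext x
      rw [Finset.sum_apply (a := x) (s := Finset.univ) (g := fun i x =>
        eFac α (P y i) (a y i) x * bf i x)]
      by_cases hx : x α = y
      · have := hγ2 x
        simp only [sl] at this
        rw [← hx, Function.update_eq_self] at this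
        rw [hx] at this
        rw [this]
        refine sum_congr rfl fun i _ => ?_
        simp only [bf, if_pos hx]
        rfl
      · rw [hfT y x hx]
        refine sum_congr rfl fun i _ => ?_
        simp only [bf, if_neg hx]
        rw [ha y i x, prod_eq_eFac_mul α]
  -- base change
  let eK : Y α → Fin q → Unit → Fn K Y := fun y i _ x => algebraMap F K (e y i x)
  let slK : Y α → (Fin s → F) → Unit → Fn K Y := fun y v _ x => algebraMap F K (sl y v x)
  have hSB : ∀ y i, S y i ⊆ B := fun y i => sdiff_sub α (P y i)
  have heK : ∀ y i j, eK y i j ∈ (A (S y i) : Submodule K (Fn K Y)) := by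
    intro y i j x x' hx
    exact congrArg (algebraMap F K) (eFac_mem α (P y i) (a y i) x x' hx)
  have hcK : ∀ y j, slK y (h y) j ∈ (A B : Submodule K (Fn K Y)) := by
    intro y j x x' hx
    simp only [slK, sl]
    have : Function.update x α y = Function.update x' α y := by
      funext β
      by_cases hβ : β = α
      · subst hβ; simp
      · rw [Function.update_of_ne hβ, Function.update_of_ne hβ]
        exact hx β (mem_erase.2 ⟨hβ, mem_univ _⟩)
    rw [this]
  have hcS : ∀ y, slK y (h y) ∉ Sp (S y) (eK y) B := by
    rintro y ⟨γ, hγ1, hγ2⟩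
    apply hns y
    refine descent (K := K) (S y) B (e y) (sl y (h y)) γ hγ1 fun x => ?_
    have := congrFun (hγ2 ()) x
    rw [Finset.sum_apply] at this
    exact this
  -- index the critical elements by a type in `Type`
  let N := Fintype.card (Y α)
  let E : Fin N ≃ Y α := (Fintype.equivFin (Y α)).symm
  obtain ⟨g, hg⟩ := tst (K := K) (X := Y) B (Fin q) Unit (Fin N) (fun k => S (E k))
    (fun k => eK (E k)) (fun k => slK (E k) (h (E k))) (fun k => hSB (E k))
    (fun k => heK (E k)) (fun k => hcK (E k)) (fun k => hcS (E k))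
  choose b hb1 hb2 using hg
  -- off-diagonal slices are annihilated
  have hoff : ∀ j k : Fin N, j ≠ k → ∑ i, b k i * g i (slK (E j) (h (E k))) = 0 := by
    intro j k hjk
    apply hb2
    refine ⟨fun i x => algebraMap F K (a (E k) i ((P (E k) i).part α)
      (fun β => Function.update x α (E j) β)), fun i => ?_, fun _ => ?_⟩
    · have := lastFac_mem (F := F) α (P (E k) i) (a (E k) i) (E j)
      rw [mem_H_of_subset (sdiff_sub α _)] at this ⊢
      intro x x' hx
      exact congrArg (algebraMap F K) (this x x' hx)
    · funext x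
      rw [Finset.sum_apply]
      simp only [slK, sl, Pi.mul_apply, eK, e]
      rw [hfT (E k) (Function.update x α (E j)) (by
        rw [Function.update_self]; exact fun h => hjk (E.injective h)), map_sum]
      refine sum_congr rfl fun i _ => ?_
      rw [ha (E k) i, prod_eq_eFac_mul α, map_mul]
      congr 2
      refine eFac_mem α _ _ _ _ fun β hβ => ?_
      have : β ≠ α := fun hh => by
        have := sdiff_sub α (P (E k) i) hβ
        rw [mem_erase] at this
        exact this.1 hh
      rw [Function.update_of_ne this]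
  -- linearity in the tensor
  have hlin : ∀ (j : Fin N) (v : Fin s → F), slK (E j) v =
      ∑ t, algebraMap F K (v t) • slK (E j) (Pi.single t 1) := by
    intro j v
    funext u x
    simp only [slK, sl, Finset.sum_apply, Pi.smul_apply, smul_eq_mul, map_sum, map_mul]
    refine sum_congr rfl fun t _ => ?_
    congr 1
    rw [Finset.sum_eq_single t]
    · simp
    · intro t' _ ht'
      simp [Pi.single_eq_of_ne ht']
    · simp
  -- the injective map
  let φ : (Fin N → K) →ₗ[K] (Fin (univBound B.card (Fintype.card (Fin q)) (Fintype.card Unit)) ×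
      Fin s → K) :=
    { toFun := fun v p => ∑ k, v k * (b k p.1 * algebraMap F K (h (E k) p.2))
      map_add' := fun v w => by
        funext p
        change _ = (∑ k : Fin N, v k * _) + ∑ k : Fin N, w k * _
        rw [← sum_add_distrib]
        refine sum_congr rfl fun k _ => ?_
        rw [Pi.add_apply, add_mul]
      map_smul' := fun c v => by
        funext p
        change _ = c * ∑ k : Fin N, v k * _
        rw [mul_sum]
        refine sum_congr rfl fun k _ => ?_
        rw [Pi.smul_apply, smul_eq_mul, mul_assoc] }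
  have hφ : Function.Injective φ := by
    rw [injective_iff_map_eq_zero]
    intro v hv
    funext j
    have h1 : ∑ p : Fin (univBound B.card (Fintype.card (Fin q)) (Fintype.card Unit)) × Fin s,
        φ v p * g p.1 (slK (E j) (Pi.single p.2 1)) = 0 := by
      refine sum_eq_zero fun p _ => ?_
      rw [hv]
      simp
    have h2 : ∑ p : Fin (univBound B.card (Fintype.card (Fin q)) (Fintype.card Unit)) × Fin s,
        φ v p * g p.1 (slK (E j) (Pi.single p.2 1)) =
        ∑ k, v k * ∑ i, b k i * g i (slK (E j) (h (E k))) := by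
      have h3 : ∀ p : Fin (univBound B.card (Fintype.card (Fin q)) (Fintype.card Unit)) × Fin s,
          φ v p * g p.1 (slK (E j) (Pi.single p.2 1)) =
          ∑ k, v k * (b k p.1 * algebraMap F K (h (E k) p.2)) *
            g p.1 (slK (E j) (Pi.single p.2 1)) := by
        intro p
        change (∑ k, v k * (b k p.1 * algebraMap F K (h (E k) p.2))) * _ = _
        rw [sum_mul]
      simp only [h3]
      rw [sum_comm]
      refine sum_congr rfl fun k _ => ?_
      rw [Fintype.sum_prod_type, mul_sum]
      refine sum_congr rfl fun i _ => ?_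
      rw [hlin j (h (E k)), map_sum, mul_sum, mul_sum]
      refine sum_congr rfl fun t _ => ?_
      rw [map_smul, smul_eq_mul]
      ring
    rw [h2, Finset.sum_eq_single j] at h1
    · rcases mul_eq_zero.1 h1 with h4 | h4
      · exact h4
      · exact absurd h4 (hb1 j)
    · intro k _ hkj
      rw [hoff j k hkj.symm, mul_zero]
    · intro hj
      exact absurd (mem_univ j) hj
  have hfin := LinearMap.finrank_le_finrank_of_injective hφ
  rw [Module.finrank_fintype_fun_eq_card, Module.finrank_fintype_fun_eq_card, Fintype.card_prod,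
    Fintype.card_fin, Fintype.card_fin, Fintype.card_fin, Fintype.card_fin, Fintype.card_unit,
    hBcard] at hfin
  calc Fintype.card (Y α) ≤ univBound (d - 1) q 1 * s := hfin
    _ = s * univBound (d - 1) q 1 := mul_comm _ _

end

/-- **Simultaneous high-rank minors of linear size.** -/
theorem main (d : ℕ) (hd : 0 < d) (R : Set (Finpartition (Finset.univ : Finset (Fin d))))
    (hR : R.Nonempty) (l : ℕ) (hl : 1 ≤ l) (F : Type u) [Field F] (Q : Fin d → Type v)
    [∀ α, Fintype (Q α)] (s : ℕ) (T : Fin s → Tensor F Q)
    (hT : ∀ a : Fin s → F, a ≠ 0 → l ≤ rk R (∑ i, a i • T i)) :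
    ∃ X : ∀ α, Finset (Q α), (∀ α, (X α).card ≤ s * univBound (d - 1) (l - 1) 1) ∧
      ∀ a : Fin s → F, a ≠ 0 → l ≤ rk R (restrict (∑ i, a i • T i) X) := by
  classical
  -- good sets
  let Good : (∀ α, Finset (Q α)) → Prop := fun X =>
    ∀ a : Fin s → F, a ≠ 0 → ¬ SumOn R (l - 1) (∑ i, a i • T i) X
  have hgood : Good (fun _ => Finset.univ) := by
    intro a ha h
    rw [sumOn_univ] at h
    exact (le_rk_iff hd hR _ hl).1 (hT a ha) h
  -- a minimal good set
  obtain ⟨X, hX, hmin⟩ : ∃ X, Good X ∧ ∀ X', Good X' → ∑ α, (X α).card ≤ ∑ α, (X' α).card := by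
    have hex : ∃ n, ∃ X, Good X ∧ ∑ α, (X α).card = n := ⟨_, _, hgood, rfl⟩
    obtain ⟨X, hX, hn⟩ := Nat.find_spec hex
    refine ⟨X, hX, fun X' hX' => ?_⟩
    rw [hn]
    exact Nat.find_min' hex ⟨X', hX', rfl⟩
  refine ⟨X, fun α => ?_, fun a ha => ?_⟩
  · -- criticality
    have hcrit : ∀ y : {x // x ∈ X α}, ∃ a : Fin s → F, a ≠ 0 ∧
        SumOn R (l - 1) (∑ i, a i • T i) (Function.update X α ((X α).erase y)) := by
      intro y
      by_contra hne
      push Not at hne
      have h1 := hmin _ hne
      have h2 : ∑ β, (Function.update X α ((X α).erase y) β).card < ∑ β, (X β).card := by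
        refine Finset.sum_lt_sum (fun β _ => ?_) ⟨α, mem_univ _, ?_⟩
        · by_cases hβ : β = α
          · subst hβ
            rw [Function.update_self]
            exact card_le_card (erase_subset _ _)
          · rw [Function.update_of_ne hβ]
        · rw [Function.update_self]
          exact card_erase_lt_of_mem y.2
      omega
    choose a ha hf using hcrit
    have key := critical_bound (F := F) (Y := fun β => {x // x ∈ X β}) α R (l - 1) s
      (fun i => restrict (T i) X) a (fun y => ?_) (fun y => ?_)
    · simpa using key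
    · obtain ⟨f, hf1, hf2⟩ := hf y
      refine ⟨fun i => restrict (f i) X, fun i => ?_, fun x hx => ?_⟩
      · obtain ⟨P, hP, c, hc⟩ := hf1 i
        exact ⟨P, hP, fun I z => c I (fun β => z β), fun x => hc _⟩
      · have := hf2 (fun β => x β) (fun β => by
          by_cases hβ : β = α
          · subst hβ
            rw [Function.update_self, mem_erase]
            exact ⟨fun hh => hx (Subtype.ext hh), (x β).2⟩
          · rw [Function.update_of_ne hβ]
            exact (x β).2)
        rw [Finset.sum_apply] at this ⊢
        exact this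
    · intro hsum
      apply hX (a y) (ha y)
      rw [← isSumOf_restrict_iff]
      convert hsum using 1
      funext x
      simp [restrict, Finset.sum_apply]
  · rw [le_rk_iff hd hR _ hl, isSumOf_restrict_iff]
    exact hX a ha

end Pool.MP_9444d7_co
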