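import Pool.Agent.Lib.MP_9444d7_co.Basic

/-!
# Syzygies and bounded chains
-/

set_option autoImplicit false
set_option linter.unusedSectionVars false

open Finset

namespace Pool.Lib.MP_9444d7_co

universe u v w

section

variable {ι : Type} [DecidableEq ι] {K : Type u} [Field K] {X : ι → Type v}

/-- `β` is a homogeneous syzygy of degree `L` of the (vector valued) functions `e`. -/
def IsSyz {κ π : Type} [Fintype κ] (S : κ → Finset ι) (e : κ → π → Fn K X) (L : Finset ι)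
    (β : κ → Fn K X) : Prop :=
  (∀ r, β r ∈ (H L (S r) : Submodule K (Fn K X))) ∧ ∀ j, ∑ r, e r j * β r = 0

variable (K X) in
/-- Uniform coherence in the directions of `B` with bound `C`. -/
def Coh (B : Finset ι) (C : ℕ → ℕ → ℕ) : Prop :=
  ∀ (κ π : Type) [Fintype κ] [Fintype π] (S : κ → Finset ι) (e : κ → π → Fn K X),
    (∀ r, S r ⊆ B) → (∀ r j, e r j ∈ (A (S r) : Submodule K (Fn K X))) →
    ∃ (Lg : Fin (C (Fintype.card κ) (Fintype.card π)) → Finset ι)
      (σ : Fin (C (Fintype.card κ) (Fintype.card π)) → κ → Fn K X),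
      (∀ u, Lg u ⊆ B) ∧ (∀ u, IsSyz S e (Lg u) (σ u)) ∧
      ∀ L, L ⊆ B → ∀ β, IsSyz S e L β →
        ∃ α : Fin (C (Fintype.card κ) (Fintype.card π)) → Fn K X,
          (∀ u, α u ∈ (H L (Lg u) : Submodule K (Fn K X))) ∧ ∀ r, β r = ∑ u, α u * σ u r

/-- The submodule generated by the vectors `f`, in degree `L`. -/
def Sp {κ₀ π : Type} [Fintype κ₀] (S₀ : κ₀ → Finset ι) (f : κ₀ → π → Fn K X) (L : Finset ι) :
    Submodule K (π → Fn K X) where
  carrier := {g | ∃ γ : κ₀ → Fn K X, (∀ v, γ v ∈ (H L (S₀ v) : Submodule K (Fn K X))) ∧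
    ∀ j, g j = ∑ v, f v j * γ v}
  add_mem' := by
    rintro g g' ⟨γ, h1, h2⟩ ⟨γ', h1', h2'⟩
    refine ⟨γ + γ', fun v => Submodule.add_mem _ (h1 v) (h1' v), fun j => ?_⟩
    simp [h2 j, h2' j, mul_add, sum_add_distrib]
  zero_mem' := ⟨0, fun v => Submodule.zero_mem _, fun j => by simp⟩
  smul_mem' := by
    rintro c g ⟨γ, h1, h2⟩
    refine ⟨c • γ, fun v => Submodule.smul_mem _ c (h1 v), fun j => ?_⟩
    simp [h2 j, smul_sum]

theorem mem_Sp {κ₀ π : Type} [Fintype κ₀] {S₀ : κ₀ → Finset ι} {f : κ₀ → π → Fn K X}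
    {L : Finset ι} {g : π → Fn K X} :
    g ∈ Sp S₀ f L ↔ ∃ γ : κ₀ → Fn K X, (∀ v, γ v ∈ (H L (S₀ v) : Submodule K (Fn K X))) ∧
      ∀ j, g j = ∑ v, f v j * γ v := Iff.rfl

theorem Sp_mul {κ₀ π : Type} [Fintype κ₀] {S₀ : κ₀ → Finset ι} {f : κ₀ → π → Fn K X}
    {L M : Finset ι} {g : π → Fn K X} (hg : g ∈ Sp S₀ f M) {α : Fn K X}
    (hα : α ∈ (H L M : Submodule K (Fn K X))) : (fun j => α * g j) ∈ Sp S₀ f L := by
  obtain ⟨γ, h1, h2⟩ := hg
  refine ⟨fun v => α * γ v, fun v => H_mul hα (h1 v), fun j => ?_⟩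
  simp only [h2 j, mul_sum]
  exact sum_congr rfl fun v _ => by ring

variable {κ κ₀ π : Type} [Fintype κ] [Fintype κ₀] [Fintype π] {Z : Type w}
  (S : κ → Finset ι) (S₀ : κ₀ → Finset ι) (e : Z → κ → π → Fn K X) (f : κ₀ → π → Fn K X)

/-- Coefficient vectors `β` with `e^w β` in the submodule generated by `f`, for all `w` with
`P w`. -/
def CP (P : Z → Prop) (L : Finset ι) : Submodule K (κ → Fn K X) where
  carrier := {β | (∀ r, β r ∈ (H L (S r) : Submodule K (Fn K X))) ∧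
    ∀ w, P w → (fun j => ∑ r, e w r j * β r) ∈ Sp S₀ f L}
  add_mem' := by
    rintro β β' ⟨h1, h2⟩ ⟨h1', h2'⟩
    refine ⟨fun r => Submodule.add_mem _ (h1 r) (h1' r), fun w hw => ?_⟩
    have := Submodule.add_mem _ (h2 w hw) (h2' w hw)
    convert this using 1
    funext j
    simp [mul_add, sum_add_distrib]
  zero_mem' := ⟨fun r => Submodule.zero_mem _, fun w _ => by
    convert Submodule.zero_mem (Sp S₀ f L) using 1
    funext j
    simp⟩
  smul_mem' := by
    rintro c β ⟨h1, h2⟩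
    refine ⟨fun r => Submodule.smul_mem _ c (h1 r), fun w hw => ?_⟩
    have := Submodule.smul_mem _ c (h2 w hw)
    convert this using 1
    funext j
    simp [smul_sum]

theorem mem_CP {P : Z → Prop} {L : Finset ι} {β : κ → Fn K X} :
    β ∈ CP S S₀ e f P L ↔ (∀ r, β r ∈ (H L (S r) : Submodule K (Fn K X))) ∧
    ∀ w, P w → (fun j => ∑ r, e w r j * β r) ∈ Sp S₀ f L := Iff.rfl

theorem CP_mono {P Q : Z → Prop} (h : ∀ w, Q w → P w) (L : Finset ι) :
    CP S S₀ e f P L ≤ CP S S₀ e f Q L := fun _ hβ => ⟨hβ.1, fun w hw => hβ.2 w (h w hw)⟩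

theorem CP_mul {P : Z → Prop} {L M : Finset ι} {β : κ → Fn K X}
    (hβ : β ∈ CP S S₀ e f P M) {α : Fn K X}
    (hα : α ∈ (H L M : Submodule K (Fn K X))) :
    (fun r => α * β r) ∈ CP S S₀ e f P L := by
  refine ⟨fun r => H_mul hα (hβ.1 r), fun w hw => ?_⟩
  convert Sp_mul (hβ.2 w hw) hα using 1
  funext j
  simp only [mul_sum]
  exact sum_congr rfl fun r _ => by ring

/-- All conditions in the list `l`. -/
abbrev CI (l : List Z) (L : Finset ι) : Submodule K (κ → Fn K X) := CP S S₀ e f (· ∈ l) L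

/-- All conditions. -/
abbrev CZ (L : Finset ι) : Submodule K (κ → Fn K X) := CP S S₀ e f (fun _ => True) L

/-- A single condition. -/
abbrev C1 (w : Z) (L : Finset ι) : Submodule K (κ → Fn K X) := CP S S₀ e f (· = w) L

theorem CZ_le_CI (l : List Z) (L : Finset ι) : CZ S S₀ e f L ≤ CI S S₀ e f l L :=
  CP_mono S S₀ e f (fun _ _ => trivial) L

theorem CI_append_le (l₂ l₁ : List Z) (L : Finset ι) :
    CI S S₀ e f (l₂ ++ l₁) L ≤ CI S S₀ e f l₁ L :=
  CP_mono S S₀ e f (fun _ hw => List.mem_append_right _ hw) L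

/-- A list is generic if each new element strictly decreases the solution space, unless it is
already equal to the space of common solutions of all conditions. -/
def Gen (B : Finset ι) : List Z → Prop
  | [] => True
  | (w :: l) => Gen B l ∧ ∀ L, L ⊆ B →
      (CI S S₀ e f l L ≤ CZ S S₀ e f L ∨ ¬ CI S S₀ e f l L ≤ C1 S S₀ e f w L)

theorem Gen.of_append {B : Finset ι} {l₂ l₁ : List Z} (h : Gen S S₀ e f B (l₂ ++ l₁)) :
    Gen S S₀ e f B l₁ := by
  induction l₂ with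
  | nil => exact h
  | cons a l ih => exact ih h.1

/-- The length needed for stabilisation in degrees of cardinality `< j`. -/
def stage (C : ℕ → ℕ → ℕ) (q q₀ p : ℕ) : ℕ → ℕ
  | 0 => 0
  | j + 1 => stage C q q₀ p j + C (q + q₀ * stage C q q₀ p j) (p * stage C q q₀ p j)

/-- The vectors of the combined system of a list. -/
def comb (l : List Z) : κ ⊕ (κ₀ × Fin l.length) → π × Fin l.length → Fn K X
  | Sum.inl r, (j, i) => e (l.get i) r j
  | Sum.inr (v, i'), (j, i) => if i' = i then - f v j else 0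

/-- The degrees of the combined system. -/
def combS (l : List Z) : κ ⊕ (κ₀ × Fin l.length) → Finset ι
  | Sum.inl r => S r
  | Sum.inr (v, _) => S₀ v

theorem comb_sum (l : List Z) (β : κ → Fn K X) (γ : κ₀ × Fin l.length → Fn K X) (j : π)
    (i : Fin l.length) :
    ∑ r, comb e f l r (j, i) * (Sum.elim β γ) r =
      (∑ r, e (l.get i) r j * β r) - ∑ v, f v j * γ (v, i) := by
  rw [Fintype.sum_sum_type]
  simp only [comb, Sum.elim_inl, Sum.elim_inr]
  rw [sub_eq_add_neg]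
  congr 1
  rw [Fintype.sum_prod_type, ← sum_neg_distrib]
  refine sum_congr rfl fun v _ => ?_
  rw [sum_eq_single i]
  · simp
  · intro i' _ hi'
    simp [hi']
  · simp

theorem isSyz_comb_iff (l : List Z) (L : Finset ι) (β : κ → Fn K X)
    (γ : κ₀ × Fin l.length → Fn K X) :
    IsSyz (combS S S₀ l) (comb e f l) L (Sum.elim β γ) ↔
      (∀ r, β r ∈ (H L (S r) : Submodule K (Fn K X))) ∧
      (∀ v i, γ (v, i) ∈ (H L (S₀ v) : Submodule K (Fn K X))) ∧
      ∀ i j, ∑ r, e (l.get i) r j * β r = ∑ v, f v j * γ (v, i) := by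
  constructor
  · rintro ⟨h1, h2⟩
    refine ⟨fun r => h1 (Sum.inl r), fun v i => h1 (Sum.inr (v, i)), fun i j => ?_⟩
    have := h2 (j, i)
    rw [comb_sum] at this
    exact sub_eq_zero.1 this
  · rintro ⟨h1, h2, h3⟩
    refine ⟨?_, ?_⟩
    · rintro (r | ⟨v, i⟩)
      · exact h1 r
      · exact h2 v i
    · rintro ⟨j, i⟩
      rw [comb_sum, h3 i j, sub_self]

/-- Membership in `CI` is the projection of the syzygies of the combined system. -/
theorem mem_CI_iff (l : List Z) (L : Finset ι) (β : κ → Fn K X) :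
    β ∈ CI S S₀ e f l L ↔ ∃ γ : κ₀ × Fin l.length → Fn K X,
      IsSyz (combS S S₀ l) (comb e f l) L (Sum.elim β γ) := by
  constructor
  · rintro ⟨h1, h2⟩
    have : ∀ i : Fin l.length, ∃ γ : κ₀ → Fn K X,
        (∀ v, γ v ∈ (H L (S₀ v) : Submodule K (Fn K X))) ∧
        ∀ j, (∑ r, e (l.get i) r j * β r) = ∑ v, f v j * γ v :=
      fun i => h2 (l.get i) (List.get_mem l i)
    choose γ hγ1 hγ2 using this
    refine ⟨fun p => γ p.2 p.1, (isSyz_comb_iff S S₀ e f l L β _).2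
      ⟨h1, fun v i => hγ1 i v, fun i j => hγ2 i j⟩⟩
  · rintro ⟨γ, hγ⟩
    obtain ⟨h1, h2, h3⟩ := (isSyz_comb_iff S S₀ e f l L β γ).1 hγ
    refine ⟨h1, fun w hw => ?_⟩
    obtain ⟨i, rfl⟩ := List.get_of_mem hw
    exact ⟨fun v => γ (v, i), fun v => h2 v i, fun j => h3 i j⟩

theorem card_comb (l : List Z) :
    Fintype.card (κ ⊕ (κ₀ × Fin l.length)) = Fintype.card κ + Fintype.card κ₀ * l.length := by
  simp

theorem card_comb' (l : List Z) :
    Fintype.card (π × Fin l.length) = Fintype.card π * l.length := by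
  simp

/-- Generators of the solution spaces of a finite list of conditions. -/
theorem exists_gens {B : Finset ι} {C : ℕ → ℕ → ℕ} (hC : Coh K X B C)
    (hS : ∀ r, S r ⊆ B) (hS₀ : ∀ v, S₀ v ⊆ B)
    (he : ∀ w r j, e w r j ∈ (A (S r) : Submodule K (Fn K X)))
    (hf : ∀ v j, f v j ∈ (A (S₀ v) : Submodule K (Fn K X))) (l : List Z) (t : ℕ)
    (ht : l.length = t) :
    ∃ (Lg : Fin (C (Fintype.card κ + Fintype.card κ₀ * t) (Fintype.card π * t)) → Finset ι)
      (σ : Fin (C (Fintype.card κ + Fintype.card κ₀ * t) (Fintype.card π * t)) → κ → Fn K X),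
      (∀ u, Lg u ⊆ B) ∧ (∀ u, σ u ∈ CI S S₀ e f l (Lg u)) ∧
      ∀ L, L ⊆ B → ∀ β ∈ CI S S₀ e f l L,
        ∃ α : Fin (C (Fintype.card κ + Fintype.card κ₀ * t) (Fintype.card π * t)) → Fn K X,
          (∀ u, α u ∈ (H L (Lg u) : Submodule K (Fn K X))) ∧ ∀ r, β r = ∑ u, α u * σ u r := by
  subst ht
  have hS' : ∀ r, combS S S₀ l r ⊆ B := by
    rintro (r | ⟨v, i⟩)
    · exact hS r
    · exact hS₀ v
  have he' : ∀ r j, comb e f l r j ∈ (A (combS S S₀ l r) : Submodule K (Fn K X)) := by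
    rintro (r | ⟨v, i'⟩) ⟨j, i⟩
    · exact he _ r j
    · simp only [comb, combS]
      split_ifs
      · exact Submodule.neg_mem _ (hf v j)
      · exact Submodule.zero_mem _
  have := hC (κ ⊕ (κ₀ × Fin l.length)) (π × Fin l.length) (combS S S₀ l) (comb e f l) hS' he'
  rw [card_comb, card_comb'] at this
  obtain ⟨Lg, σ, h1, h2, h3⟩ := this
  refine ⟨Lg, fun u r => σ u (Sum.inl r), h1, fun u => ?_, fun L hL β hβ => ?_⟩
  · rw [mem_CI_iff]
    refine ⟨fun p => σ u (Sum.inr p), ?_⟩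
    convert h2 u using 1
    funext r
    rcases r with r | r <;> rfl
  · rw [mem_CI_iff] at hβ
    obtain ⟨γ, hγ⟩ := hβ
    obtain ⟨α, hα1, hα2⟩ := h3 L hL _ hγ
    exact ⟨α, hα1, fun r => hα2 (Sum.inl r)⟩

end

end Pool.Lib.MP_9444d7_co
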