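import Pool.Agent.Lib.MP_9444d7_co.Coherence

/-!
# Universal test functionals
-/

set_option autoImplicit false
set_option linter.unusedSectionVars false
set_option linter.unusedVariables false

open Finset

namespace Pool.Lib.MP_9444d7_co

universe u v w

/-- The number of test functionals. -/
def univBound : ℕ → ℕ → ℕ → ℕ
  | 0 => fun _ p => p
  | n + 1 => fun q p =>
    univBound n (q + q * (stage (cohBound n) q q p (n + 1) + 1))
      (p * (stage (cohBound n) q q p (n + 1) + 1))

section

variable {ι : Type} [DecidableEq ι] {K : Type u} [Field K] {X : ι → Type v}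

variable (K X) in
/-- Universal test functionals in the directions of `B` with bound `M`. -/
def Tst (B : Finset ι) (M : ℕ → ℕ → ℕ) : Prop :=
  ∀ (κ π 𝒩 : Type) [Fintype κ] [Fintype π] [Finite 𝒩] (S : 𝒩 → κ → Finset ι)
    (e : 𝒩 → κ → π → Fn K X) (c : 𝒩 → π → Fn K X),
    (∀ k r, S k r ⊆ B) → (∀ k r j, e k r j ∈ (A (S k r) : Submodule K (Fn K X))) →
    (∀ k j, c k j ∈ (A B : Submodule K (Fn K X))) → (∀ k, c k ∉ Sp (S k) (e k) B) →
    ∃ g : Fin (M (Fintype.card κ) (Fintype.card π)) → ((π → Fn K X) →ₗ[K] K),
      ∀ k, ∃ a : Fin (M (Fintype.card κ) (Fintype.card π)) → K,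
        (∑ i, a i * g i (c k)) ≠ 0 ∧ ∀ x ∈ Sp (S k) (e k) B, ∑ i, a i * g i x = 0

theorem tst_empty : Tst K X ∅ (univBound 0) := by
  classical
  intro κ π 𝒩 _ _ _ S e c hS he hc hcS
  show ∃ g : Fin (Fintype.card π) → ((π → Fn K X) →ₗ[K] K), ∀ k, ∃ a : Fin (Fintype.card π) → K, _
  by_cases hne : Nonempty (∀ i, X i)
  · obtain ⟨x₀⟩ := hne
    let ev : (π → Fn K X) →ₗ[K] (π → K) :=
      { toFun := fun v j => v j x₀
        map_add' := fun v w => rfl
        map_smul' := fun c v => rfl }
    let E := (Fintype.equivFin π).symm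
    refine ⟨fun i => (LinearMap.proj (E i)).comp ev, fun k => ?_⟩
    have hS' : ∀ r, S k r = ∅ := fun r => subset_empty.1 (hS k r)
    let W : Submodule K (π → K) := Submodule.span K (Set.range fun r => ev (e k r))
    have hW : ev (c k) ∉ W := by
      intro hmem
      apply hcS k
      rw [Submodule.mem_span_range_iff_exists_fun] at hmem
      obtain ⟨a, ha⟩ := hmem
      refine ⟨fun r _ => a r, fun r => ?_, fun j => ?_⟩
      · rw [hS' r, mem_H_of_subset (Subset.refl _)]
        intro x y _; rfl
      · funext x
        have h1 := congrFun ha j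
        rw [Finset.sum_apply] at h1 ⊢
        simp only [Pi.smul_apply, smul_eq_mul] at h1
        rw [hc k j x x₀ (by simp)]
        change _ = c k j x₀ at h1
        rw [← h1]
        refine sum_congr rfl fun r _ => ?_
        have h2 := he k r j
        rw [hS' r] at h2
        simp only [Pi.mul_apply]
        rw [h2 x x₀ (by simp), mul_comm]
        rfl
    obtain ⟨F, hF1, hF2⟩ := Submodule.exists_le_ker_of_notMem hW
    have hF : ∀ v : π → K, F v = ∑ i, F (Pi.single (E i) 1) * v (E i) := by
      intro v
      rw [E.sum_comp (fun j => F (Pi.single j 1) * v j)]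
      conv_lhs => rw [pi_eq_sum_univ' v, map_sum]
      refine sum_congr rfl fun j _ => ?_
      rw [map_smul, smul_eq_mul, mul_comm]
    refine ⟨fun i => F (Pi.single (E i) 1), ?_, fun x hx => ?_⟩
    · intro h0
      exact hF1 ((hF (ev (c k))).trans h0)
    · obtain ⟨γ, h1, h2⟩ := hx
      have : ev x ∈ W := by
        have hx' : ev x = ∑ r, (γ r x₀) • ev (e k r) := by
          funext j
          rw [Finset.sum_apply]
          change x j x₀ = _
          rw [h2 j, Finset.sum_apply]
          refine sum_congr rfl fun r _ => ?_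
          simp only [Pi.mul_apply, Pi.smul_apply, smul_eq_mul]
          rw [mul_comm]
          rfl
        rw [hx']
        exact Submodule.sum_mem _ fun r _ => Submodule.smul_mem _ _
          (Submodule.subset_span ⟨r, rfl⟩)
      exact (hF (ev x)).symm.trans (hF2 this)
  · have hsub : Subsingleton (Fn K X) := ⟨fun f g => funext fun x => absurd ⟨x⟩ hne⟩
    refine ⟨fun _ => 0, fun k => ?_⟩
    exfalso
    apply hcS k
    have : c k = 0 := Subsingleton.elim _ _
    rw [this]
    exact Submodule.zero_mem _

section step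

variable {b : ι} [Fintype (X b)] {B : Finset ι} {κ π : Type} [Fintype κ] [Fintype π]

theorem tst_step [Infinite K] {C M : ℕ → ℕ → ℕ} (hC : Coh K X B C) (hM : Tst K X B M)
    (hb : b ∉ B) :
    Tst K X (insert b B) (fun q p =>
      M (q + q * (stage C q q p (B.card + 1) + 1)) (p * (stage C q q p (B.card + 1) + 1))) := by
  classical
  intro κ π 𝒩 _ _ _ S e c hS he hc hcS
  set q := Fintype.card κ with hq
  set p := Fintype.card π with hp
  set t := stage C q q p (B.card + 1) with ht
  obtain ⟨l, hlen, hgen⟩ := exists_gen (K := K) (Z := X b → K) (𝒩 := 𝒩) B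
    (fun k => S₁ b (S k)) (fun k => S₀' b (S k)) (fun k => e₁ b (S k) (e k))
    (fun k => e₀ b (S k) (e k)) (fun k => e₁_add) (fun k => e₁_smul) t
  have hS₁ := fun k => S₁_subset (κ := κ) (hS k)
  have hS₀ := fun k => S₀'_subset (κ := κ) (hS k)
  have he₁ := fun k z r j => e₁_mem (b := b) (he k) z r j
  have he₀ := fun k r j => e₀_mem (b := b) (he k) r j
  have hst : ∀ k, CI (S₁ b (S k)) (S₀' b (S k)) (e₁ b (S k) (e k)) (e₀ b (S k) (e k)) l B ≤
      CZ (S₁ b (S k)) (S₀' b (S k)) (e₁ b (S k) (e k)) (e₀ b (S k) (e k)) B := fun k =>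
    gen_stable' (S₁ b (S k)) (S₀' b (S k)) (e₁ b (S k) (e k)) (e₀ b (S k) (e k))
      hC (hS₁ k) (hS₀ k) (he₁ k) (he₀ k) l (hgen k) hlen B (Subset.refl _)
  -- `β` solves the system at `z`
  let Sol : 𝒩 → (X b → K) → (κ → Fn K X) → Prop := fun k z β =>
    (fun j => contr b z (c k j) - ∑ r, e₁ b (S k) (e k) z r j * β r) ∈
      Sp (S₀' b (S k)) (e₀ b (S k) (e k)) B
  let Cons : 𝒩 → (κ → Fn K X) → Prop := fun k β =>
    (∀ r, β r ∈ (H B (S₁ b (S k) r) : Submodule K (Fn K X))) ∧ ∀ w ∈ l, Sol k w β
  have hbB : b ∉ B := hb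
  -- a global solution is impossible
  have hno : ∀ k β, (∀ r, β r ∈ (H B (S₁ b (S k) r) : Submodule K (Fn K X))) →
      ¬ ∀ z, Sol k z β := by
    intro k β hβ hall
    apply hcS k
    have : ∀ y : X b, ∃ γ : κ → Fn K X,
        (∀ r, γ r ∈ (H B (S₀' b (S k) r) : Submodule K (Fn K X))) ∧
        ∀ j, contr b (Pi.single y (1 : K)) (c k j) -
          ∑ r, e₁ b (S k) (e k) (Pi.single y 1) r j * β r = ∑ r, e₀ b (S k) (e k) r j * γ r :=
      fun y => hall (Pi.single y 1)
    choose γ hγ1 hγ2 using this
    refine ⟨fun r => if b ∈ S k r then β r else glue b (fun y => γ y r), fun r => ?_, fun j => ?_⟩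
    · dsimp only
      split_ifs with h
      · rw [H_erase_eq h hbB]
        have := hβ r
        simpa [S₁, h] using this
      · refine glue_mem_H h (fun y => ?_) hbB
        have := hγ1 y r
        simpa [S₀', h] using this
    · funext x
      have h1 := congrFun (hγ2 (x b) j) x
      rw [Pi.sub_apply, contr_single_self, sub_eq_iff_eq_add] at h1
      rw [h1, sum_split_apply (b := b) (S := S k) (e := e k), add_comm]
      refine congrArg₂ (· + ·) ?_ ?_
      · rw [Finset.sum_apply, Finset.sum_apply]
        refine sum_congr rfl fun r _ => ?_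
        by_cases h : b ∈ S k r
        · simp [h]
        · simp [h, e₁]
      · rw [Finset.sum_apply, Finset.sum_apply]
        refine sum_congr rfl fun r _ => ?_
        by_cases h : b ∈ S k r
        · simp [h, e₀]
        · simp [h, glue]
  -- choose the last vector
  have hlast : ∃ z : X b → K, ∀ k β, Cons k β → ¬ Sol k z β := by
    -- one solution per index suffices
    let P : 𝒩 → Submodule K (X b → K) := fun k =>
      if h : ∃ β, Cons k β then
        { carrier := {z | Sol k z h.choose}
          add_mem' := by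
            intro z z' hz hz'
            have := Submodule.add_mem (Sp (S₀' b (S k)) (e₀ b (S k) (e k)) B) hz hz'
            change _ ∈ Sp (S₀' b (S k)) (e₀ b (S k) (e k)) B
            convert this using 1
            funext j
            simp only [Pi.add_apply, contr_vec_add, e₁_add, add_mul, sum_add_distrib]
            ring
          zero_mem' := by
            change _ ∈ Sp (S₀' b (S k)) (e₀ b (S k) (e k)) B
            convert Submodule.zero_mem (Sp (S₀' b (S k)) (e₀ b (S k) (e k)) B) using 1
            funext j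
            have : ∀ r, e₁ b (S k) (e k) 0 r j = 0 := by
              intro r
              have := e₁_smul (b := b) (S := S k) (e := e k) 0 (0 : X b → K) r j
              simpa using this
            simp [contr_vec_zero, this]
          smul_mem' := by
            intro a z hz
            have := Submodule.smul_mem (Sp (S₀' b (S k)) (e₀ b (S k) (e k)) B) a hz
            change _ ∈ Sp (S₀' b (S k)) (e₀ b (S k) (e k)) B
            convert this using 1
            funext j
            simp [contr_vec_smul, e₁_smul, smul_sub, smul_sum] }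
      else ⊥
    by_cases hcov : (⋃ k : {k // ∃ β, Cons k β}, (P k.1 : Set (X b → K))) = Set.univ
    · exfalso
      obtain ⟨⟨k, hk⟩, htop⟩ := Subspace.exists_eq_top_of_iUnion_eq_univ hcov
      simp only [P, dif_pos hk] at htop
      refine hno k hk.choose hk.choose_spec.1 fun z => ?_
      have : z ∈ (⊤ : Submodule K (X b → K)) := trivial
      rw [← htop] at this
      exact this
    · have : ∃ z : X b → K, ∀ k : {k // ∃ β, Cons k β}, z ∉ P k.1 := by
        by_contra hne
        push Not at hne
        apply hcov
        ext z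
        simpa using hne z
      obtain ⟨z, hz⟩ := this
      refine ⟨z, fun k β hβ hsol => ?_⟩
      have hk : ∃ β, Cons k β := ⟨β, hβ⟩
      apply hz ⟨k, hk⟩
      simp only [P, dif_pos hk]
      -- the difference of two solutions is in `CI`, hence in `CZ`
      have hdiff : (fun r => hk.choose r - β r) ∈
          CI (S₁ b (S k)) (S₀' b (S k)) (e₁ b (S k) (e k)) (e₀ b (S k) (e k)) l B := by
        refine ⟨fun r => Submodule.sub_mem _ (hk.choose_spec.1 r) (hβ.1 r), fun w hw => ?_⟩
        have := Submodule.sub_mem _ (hβ.2 w hw) (hk.choose_spec.2 w hw)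
        convert this using 1
        funext j
        simp only [Pi.sub_apply, mul_sub, sum_sub_distrib]
        ring
      have hz' := (hst k hdiff).2 z trivial
      have := Submodule.sub_mem _ hsol hz'
      change _ ∈ Sp _ _ _
      convert this using 1
      funext j
      simp only [Pi.sub_apply, mul_sub, sum_sub_distrib]
      ring
  obtain ⟨z, hz⟩ := hlast
  set l' := z :: l with hl'
  have hlen' : l'.length = t + 1 := by simp [hl', hlen]
  have hsum : ∀ k (γ : κ ⊕ (κ × Fin l'.length) → Fn K X) j i,
      ∑ r, comb (e₁ b (S k) (e k)) (e₀ b (S k) (e k)) l' r (j, i) * γ r =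
      (∑ r, e₁ b (S k) (e k) (l'.get i) r j * γ (Sum.inl r)) -
        ∑ v, e₀ b (S k) (e k) v j * γ (Sum.inr (v, i)) := by
    intro k γ j i
    have h1 := comb_sum (e₁ b (S k) (e k)) (e₀ b (S k) (e k)) l' (fun r => γ (Sum.inl r))
      (fun r => γ (Sum.inr r)) j i
    have h2 : Sum.elim (fun r => γ (Sum.inl r)) (fun r => γ (Sum.inr r)) = γ := by
      funext r
      rcases r with r | r <;> rfl
    rw [h2] at h1
    exact h1
  -- apply the induction hypothesis
  have := hM (κ ⊕ (κ × Fin l'.length)) (π × Fin l'.length) 𝒩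
    (fun k => combS (S₁ b (S k)) (S₀' b (S k)) l')
    (fun k => comb (e₁ b (S k) (e k)) (e₀ b (S k) (e k)) l')
    (fun k ji => contr b (l'.get ji.2) (c k ji.1))
    (by
      rintro k (r | ⟨v, i⟩)
      · exact hS₁ k r
      · exact hS₀ k v)
    (by
      rintro k (r | ⟨v, i'⟩) ⟨j, i⟩
      · exact he₁ k _ r j
      · simp only [comb, combS]
        split_ifs
        · exact Submodule.neg_mem _ (he₀ k v j)
        · exact Submodule.zero_mem _)
    (by
      rintro k ⟨j, i⟩
      have := contr_mem_A b (z := l'.get i) (hc k j)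
      rwa [erase_insert hb] at this)
    (by
      intro k hmem
      obtain ⟨γ, hγ1, hγ2⟩ := hmem
      have hsol : ∀ w ∈ l', Sol k w (fun r => γ (Sum.inl r)) := by
        intro w hw
        obtain ⟨i, rfl⟩ := List.get_of_mem hw
        refine ⟨fun v => - γ (Sum.inr (v, i)), fun v => Submodule.neg_mem _ (hγ1 (Sum.inr (v, i))),
          fun j => ?_⟩
        have h1 := hγ2 (j, i)
        rw [hsum] at h1
        simp only at h1 ⊢
        rw [h1]
        simp only [mul_neg, sum_neg_distrib]
        ring
      refine hz k (fun r => γ (Sum.inl r)) ⟨fun r => hγ1 (Sum.inl r), fun w hw =>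
        hsol w (List.mem_cons_of_mem _ hw)⟩ (hsol z List.mem_cons_self))
  have hcard : M (Fintype.card (κ ⊕ (κ × Fin l'.length))) (Fintype.card (π × Fin l'.length)) =
      M (q + q * (t + 1)) (p * (t + 1)) := by
    rw [card_comb, card_comb', hlen']
  rw [hcard] at this
  obtain ⟨g, hg⟩ := this
  let Γ : (π → Fn K X) →ₗ[K] (π × Fin l'.length → Fn K X) :=
    { toFun := fun v ji => contr b (l'.get ji.2) (v ji.1)
      map_add' := fun v w => by
        funext ji
        simp only [Pi.add_apply]
        exact contr_add b _ _ _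
      map_smul' := fun a v => by
        funext ji x
        simp only [contr, Pi.smul_apply, smul_eq_mul, RingHom.id_apply, mul_sum]
        exact sum_congr rfl fun y _ => by ring }
  refine ⟨fun i => (g i).comp Γ, fun k => ?_⟩
  obtain ⟨a, ha1, ha2⟩ := hg k
  refine ⟨a, ha1, fun x hx => ?_⟩
  refine ha2 (Γ x) ?_
  obtain ⟨γ, hγ1, hγ2⟩ := hx
  refine ⟨Sum.elim (fun r => if b ∈ S k r then γ r else 0)
    (fun vi => if b ∈ S k vi.1 then 0 else - contr b (l'.get vi.2) (γ vi.1)), ?_, ?_⟩
  · rintro (r | ⟨v, i⟩)
    · simp only [Sum.elim_inl, combS]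
      split_ifs with h
      · have := hγ1 r
        rw [H_erase_eq h hb] at this
        simpa [S₁, h] using this
      · exact Submodule.zero_mem _
    · simp only [Sum.elim_inr, combS]
      split_ifs with h
      · exact Submodule.zero_mem _
      · refine Submodule.neg_mem _ ?_
        have := contr_mem_H h (hγ1 v) (l'.get i) hb
        simpa [S₀', h] using this
  · rintro ⟨j, i⟩
    rw [hsum]
    simp only [Sum.elim_inl, Sum.elim_inr]
    change contr b (l'.get i) (x j) = _
    rw [hγ2 j, contr_rel (he k) hb hγ1, sub_eq_add_neg, ← sum_neg_distrib]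
    congr 1
    refine sum_congr rfl fun v _ => ?_
    by_cases h : b ∈ S k v
    · simp [h, e₀]
    · simp [h]

end step

/-- **Universal test functionals** exist. -/
theorem tst [Infinite K] [∀ i, Fintype (X i)] (B : Finset ι) : Tst K X B (univBound B.card) := by
  induction B using Finset.induction_on with
  | empty => exact tst_empty
  | insert b B hb ih =>
    rw [card_insert_of_notMem hb]
    exact tst_step (coh B) ih hb

end

end Pool.Lib.MP_9444d7_co
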